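import Pool.Agent.Lib.MP_c69b6d_co.G.Rank

/-! The real algebra of the five polynomials of a triangle. -/

namespace Pool.Agent.Lib.MP_c69b6d_co.G

/-- the five numbers attached to one side. -/
structure V5 where
  o : ℝ
  a : ℝ
  b : ℝ
  c : ℝ
  t : ℝ

namespace V5

def ev (x : V5) (u v w : ℝ) : ℝ := tf x.o x.a x.b x.c x.t u v w

noncomputable def glu (x n : V5) (u v w : ℝ) : ℝ :=
  gl x.o x.a x.b x.c x.t n.o n.a n.b n.c n.t u v w

noncomputable def A (n : V5) : ℝ := (n.b + n.c - n.a) / 2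
noncomputable def B (n : V5) : ℝ := (n.a + n.c - n.b) / 2
noncomputable def C (n : V5) : ℝ := (n.a + n.b - n.c) / 2

/-- the defect of the quadric identity. -/
noncomputable def Q (n : V5) : ℝ := n.A * n.B + n.A * n.C + n.B * n.C - n.o * n.t

def Pos (n : V5) : Prop := 0 < n.t ∧ 0 ≤ n.A ∧ 0 ≤ n.B ∧ 0 ≤ n.C

/-- `n + s m`. -/
def mv (n m : V5) (s : ℝ) : V5 :=
  ⟨n.o + s * m.o, n.a + s * m.a, n.b + s * m.b, n.c + s * m.c, n.t + s * m.t⟩

theorem glu_eq (x : V5) {n : V5} (hQ : n.Q = 0) (ht : n.t ≠ 0) (u v w : ℝ) :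
    x.glu n u v w = n.t * x.ev (u + n.A / n.t) (v + n.B / n.t) (w + n.C / n.t) := by
  have : n.o = (n.A * n.B + n.A * n.C + n.B * n.C) / n.t := by
    unfold Q at hQ; field_simp; linarith
  unfold glu gl ev tf
  rw [this]
  unfold A B C
  field_simp
  ring

theorem glu_eq' {x : V5} (n : V5) (ht : x.t ≠ 0) (u v w : ℝ) :
    x.glu n u v w = x.t * (n.ev (u + x.A / x.t) (v + x.B / x.t) (w + x.C / x.t) -
      x.Q / x.t ^ 2 * n.t) := by
  unfold glu gl ev tf Q A B C
  field_simp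
  ring

end V5

/-- the side `K_4`. -/
def k4 (p q r : ℝ) : V5 := ⟨p * q * r, p * q + p * r, p * q + q * r, p * r + q * r, p + q + r⟩

theorem glu_k4 (x : V5) {p q r : ℝ} (h : p + q + r ≠ 0) (u v w : ℝ) :
    x.glu (k4 p q r) u v w = (p + q + r) *
      x.ev (u + q * r / (p + q + r)) (v + p * r / (p + q + r)) (w + p * q / (p + q + r)) := by
  have e1 : (k4 p q r).A = q * r := by unfold V5.A k4; ring
  have e2 : (k4 p q r).B = p * r := by unfold V5.B k4; ring
  have e3 : (k4 p q r).C = p * q := by unfold V5.C k4; ring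
  rw [V5.glu_eq x (by unfold V5.Q; rw [e1, e2, e3]; unfold k4; ring) h, e1, e2, e3]
  rfl

theorem small {u v w A B C : ℝ} (hu : 0 < u) (hv : 0 < v) (hw : 0 < w) (hA : 0 ≤ A) (hB : 0 ≤ B)
    (hC : 0 ≤ C) : ∃ ε : ℝ, 0 < ε ∧ ε * A < u ∧ ε * B < v ∧ ε * C < w := by
  have hm : 0 < min u (min v w) := by positivity
  have h1 : min u (min v w) ≤ u := min_le_left _ _
  have h2 : min u (min v w) ≤ v := (min_le_right _ _).trans (min_le_left _ _)
  have h3 : min u (min v w) ≤ w := (min_le_right _ _).trans (min_le_right _ _)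
  set m := min u (min v w)
  have hS : 0 < A + B + C + 1 := by positivity
  have he : 0 < m / (A + B + C + 1) := by positivity
  have e : m / (A + B + C + 1) * (A + B + C + 1) = m := by field_simp
  refine ⟨m / (A + B + C + 1), he, ?_, ?_, ?_⟩ <;> nlinarith

theorem lead {A B C : ℝ} (h : ∀ t : ℝ, 0 < t → 0 ≤ A * t ^ 2 + B * t + C) : 0 ≤ A := by
  by_contra k
  have k : 0 < -A := by linarith
  have h1 : 0 ≤ (|B| + |C|) / (-A) := by positivity
  have e : (|B| + |C|) / (-A) * (-A) = |B| + |C| := div_mul_cancel₀ _ k.ne'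
  set s := (|B| + |C|) / (-A)
  have h2 := h (s + 1) (by linarith)
  have h3 := le_abs_self B
  have h4 := le_abs_self C
  have h5 := abs_nonneg C
  have h6 : B * (s + 1) ≤ |B| * (s + 1) := mul_le_mul_of_nonneg_right h3 (by linarith)
  have h7 : C ≤ |C| * (s + 1) := by nlinarith
  have h8 : A * (s + 1) ^ 2 + |B| * (s + 1) + |C| * (s + 1) = A * (s + 1) := by
    linear_combination (-(s + 1)) * e
  nlinarith

theorem cone {Φa Φb Φc τa τb τc : ℝ} (ha : 0 ≤ Φa) (hb : 0 ≤ Φb) (hc : 0 ≤ Φc)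
    (Ha : ∀ q r : ℝ, 0 < q → 0 < r → 0 ≤ -(q * r) * Φa + r * (q + r) * Φb + q * (q + r) * Φc)
    (Hb : ∀ p r : ℝ, 0 < p → 0 < r → 0 ≤ r * (p + r) * Φa + -(p * r) * Φb + p * (p + r) * Φc)
    (Hc : ∀ p q : ℝ, 0 < p → 0 < q → 0 ≤ q * (p + q) * Φa + p * (p + q) * Φb + -(p * q) * Φc)
    (iso : τa * τb + τa * τc + τb * τc = 0) (s1 : 0 ≤ τb + τc) (s2 : 0 ≤ τa + τc)
    (s3 : 0 ≤ τa + τb) : 0 ≤ τa * Φa + τb * Φb + τc * Φc := by
  by_cases k1 : τa < 0
  · have := Ha τc τb (by linarith) (by linarith)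
    refine nonneg_of_mul_nonneg_right (a := τb + τc) ?_ (by linarith)
    have e : (τb + τc) * (τa * Φa + τb * Φb + τc * Φc) =
      -(τc * τb) * Φa + τb * (τc + τb) * Φb + τc * (τc + τb) * Φc := by
      linear_combination Φa * iso
    rwa [e]
  by_cases k2 : τb < 0
  · have := Hb τc τa (by linarith) (by linarith)
    refine nonneg_of_mul_nonneg_right (a := τa + τc) ?_ (by linarith)
    have e : (τa + τc) * (τa * Φa + τb * Φb + τc * Φc) =
      τa * (τc + τa) * Φa + -(τc * τa) * Φb + τc * (τc + τa) * Φc := by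
      linear_combination Φb * iso
    rwa [e]
  by_cases k3 : τc < 0
  · have := Hc τb τa (by linarith) (by linarith)
    refine nonneg_of_mul_nonneg_right (a := τa + τb) ?_ (by linarith)
    have e : (τa + τb) * (τa * Φa + τb * Φb + τc * Φc) =
      τa * (τb + τa) * Φa + τb * (τb + τa) * Φb + -(τb * τa) * Φc := by
      linear_combination Φc * iso
    rwa [e]
  have := not_lt.1 k1
  have := not_lt.1 k2
  have := not_lt.1 k3
  positivity

/-- the Rayleigh difference of `x, x'` at `(u, v, w)` in the direction of the first variable. -/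
def ph (x x' : V5) (u v w xa xa' s : ℝ) : ℝ :=
  x'.ev u v w * (xa + x.t * s) - x.ev u v w * (xa' + x'.t * s)

theorem dir_eq (x x' : V5) (u v w : ℝ) {τa τb τc : ℝ} (iso : τa * τb + τa * τc + τb * τc = 0) :
    x'.ev u v w * x.ev (u + τa) (v + τb) (w + τc) - x.ev u v w * x'.ev (u + τa) (v + τb) (w + τc) =
      τa * ph x x' u v w x.a x'.a (v + w) + τb * ph x x' u v w x.b x'.b (u + w) +
        τc * ph x x' u v w x.c x'.c (u + v) := by
  unfold ph
  have e : ∀ z : V5, z.ev (u + τa) (v + τb) (w + τc) = z.ev u v w + τa * (z.a + z.t * (v + w)) +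
      τb * (z.b + z.t * (u + w)) + τc * (z.c + z.t * (u + v)) := by
    intro z; unfold V5.ev tf; linear_combination z.t * iso
  rw [e x, e x']; ring

theorem iso_mv {n m : V5} (h0 : n.Q = 0) (h1 : (n.mv m 1).Q = 0) (h2 : (n.mv m 2).Q = 0) :
    (n.t * m.A - m.t * n.A) * (n.t * m.B - m.t * n.B) +
      (n.t * m.A - m.t * n.A) * (n.t * m.C - m.t * n.C) +
      (n.t * m.B - m.t * n.B) * (n.t * m.C - m.t * n.C) = 0 := by
  unfold V5.Q V5.A V5.B V5.C V5.mv at *
  simp only at *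
  linear_combination (m.t ^ 2 + n.t ^ 2 / 2 + 3 / 2 * n.t * m.t) * h0 +
    (-n.t ^ 2 - 2 * n.t * m.t) * h1 + (n.t ^ 2 / 2 + n.t * m.t / 2) * h2

theorem sign_aux {o a b c t o' a' b' c' t' : ℝ}
    (h : ∀ u : ℝ, 0 < u →
      tf o a b c t u 1 1 * tf (o + 1 * o') (a + 1 * a') (b + 1 * b') (c + 1 * c') (t + 1 * t')
        u (1 + 1) 1 ≤
      tf o a b c t u (1 + 1) 1 * tf (o + 1 * o') (a + 1 * a') (b + 1 * b') (c + 1 * c')
        (t + 1 * t') u 1 1) : 0 ≤ t * a' - t' * a := by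
  refine lead (B := (b + t) * (a' + 2 * t') + t * (o' + b' + c' + t') -
      (o + b + c + t) * t' - (a + 2 * t) * (b' + t'))
    (C := (b + t) * (o' + b' + c' + t') - (o + b + c + t) * (b' + t')) fun u hu => ?_
  have := h u hu
  unfold tf at this
  linarith

end Pool.Agent.Lib.MP_c69b6d_co.G
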