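import Pool.Agent.Lib.MP_c69b6d_co.G.Det

/-! The transfer of the Rayleigh inequalities from the gluing with `K_4`. -/

namespace Pool.Agent.Lib.MP_c69b6d_co.G

variable {α : Type} [DecidableEq α]

/-- the Rayleigh inequality in the form of finite differences. -/
def Ry (F : (α → ℝ) → ℝ) (g h : α) (y : α → ℝ) : Prop :=
  F y * F (up (up y g 1) h 1) ≤ F (up y g 1) * F (up y h 1)

theorem up_comm (y : α → ℝ) (g h : α) (s t : ℝ) : up (up y g s) h t = up (up y h t) g s := by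
  funext i; unfold up; ring

theorem Ry.symm {F : (α → ℝ) → ℝ} {g h : α} {y : α → ℝ} (k : Ry F g h y) : Ry F h g y := by
  unfold Ry at k ⊢
  rw [up_comm, mul_comm (F (up y h 1))]; exact k

noncomputable def FK (a b c d e f : α) (xv : (α → ℝ) → V5) (z : α → ℝ) : ℝ :=
  (xv z).glu (k4 (z d) (z e) (z f)) (z a) (z b) (z c)

noncomputable def FP (a b c : α) (xv nv : (α → ℝ) → V5) (y : α → ℝ) : ℝ :=
  (xv y).glu (nv y) (y a) (y b) (y c)

structure Core (a b c d e f : α) (X Y : Finset α) (xv nv : (α → ℝ) → V5) : Prop where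
  ab : a ≠ b
  ac : a ≠ c
  ad : a ≠ d
  ae : a ≠ e
  af : a ≠ f
  bc : b ≠ c
  bd : b ≠ d
  be : b ≠ e
  bf : b ≠ f
  cd : c ≠ d
  ce : c ≠ e
  cf : c ≠ f
  de : d ≠ e
  df : d ≠ f
  ef : e ≠ f
  aX : a ∉ X
  bX : b ∉ X
  cX : c ∉ X
  dX : d ∉ X
  eX : e ∉ X
  fX : f ∉ X
  aY : a ∉ Y
  bY : b ∉ Y
  cY : c ∉ Y
  disj : ∀ g ∈ X, g ∉ Y
  xdep : ∀ y z : α → ℝ, (∀ g ∈ X, y g = z g) → xv y = xv z
  ndep : ∀ y z : α → ℝ, (∀ g ∈ Y, y g = z g) → nv y = nv z
  xpos : ∀ y : α → ℝ, (∀ i, 0 < y i) → (xv y).Pos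
  npos : ∀ y : α → ℝ, (∀ i, 0 < y i) → (nv y).Pos
  quad : ∀ y : α → ℝ, (∀ i, 0 < y i) → (nv y).Q = 0
  aff : ∀ g ∈ Y, ∀ y : α → ℝ, ∃ m : V5, ∀ s, nv (up y g s) = (nv y).mv m s
  nev : ∀ y : α → ℝ, (∀ i, 0 < y i) → 0 < (nv y).ev (y a) (y b) (y c)
  herm : ∀ x : ℝ, 0 ≤ x → ∀ g h, (g = a ∨ g = b ∨ g = c ∨ g ∈ Y) → (h = a ∨ h = b ∨ h = c ∨ h ∈ Y) →
    ∀ y : α → ℝ, (∀ i, 0 < y i) → Gt nv a b c x y ≠ 0 → Ry (Gt nv a b c x) g h y
  ppos : ∀ y : α → ℝ, (∀ i, 0 < y i) → 0 < FP a b c xv nv y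
  rayK : ∀ g h, g ≠ h → (g = a ∨ g = b ∨ g = c ∨ g = d ∨ g = e ∨ g = f ∨ g ∈ X) →
    (h = a ∨ h = b ∨ h = c ∨ h = d ∨ h = e ∨ h = f ∨ h ∈ X) →
    ∀ z : α → ℝ, (∀ i, 0 < z i) → Ry (FK a b c d e f xv) g h z

/-- the shifted weight of an element of the triangle. -/
noncomputable def nu (d e f a g h : α) (z : α → ℝ) : ℝ := z a + z g * z h / (z d + z e + z f)

theorem FK_eq (a b c d e f : α) (xv : (α → ℝ) → V5) {z : α → ℝ} (hz : ∀ i, 0 < z i) :
    FK a b c d e f xv z = (z d + z e + z f) *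
      (xv z).ev (nu d e f a e f z) (nu d e f b d f z) (nu d e f c d e z) :=
  glu_k4 _ (by have := hz d; have := hz e; have := hz f; positivity) _ _ _

theorem Q_nonneg {x : V5} (hx : 0 < x.t) {u v w k β γ : ℝ} (hk : 0 < k) (hβ : β = v + x.B / x.t)
    (hγ : γ = w + x.C / x.t) (hS : 0 < γ + β)
    (h : x.ev u v w * x.ev (u + k * -(γ * β) + 1) (v + k * (β * (γ + β))) (w + k * (γ * (γ + β))) ≤
      x.ev (u + 1) v w * x.ev (u + k * -(γ * β)) (v + k * (β * (γ + β))) (w + k * (γ * (γ + β)))) :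
    0 ≤ x.Q := by
  obtain ⟨a, ha⟩ : ∃ a, a = x.A / x.t := ⟨_, rfl⟩
  obtain ⟨b, hb⟩ : ∃ b, b = x.B / x.t := ⟨_, rfl⟩
  obtain ⟨c, hc⟩ : ∃ c, c = x.C / x.t := ⟨_, rfl⟩
  have e1 : x.a = x.t * (b + c) := by rw [hb, hc]; unfold V5.B V5.C; field_simp; ring
  have e2 : x.b = x.t * (a + c) := by rw [ha, hc]; unfold V5.A V5.C; field_simp; ring
  have e3 : x.c = x.t * (a + b) := by rw [ha, hb]; unfold V5.A V5.B; field_simp; ring
  have e4 : x.Q = x.t ^ 2 * (a * b + a * c + b * c) - x.o * x.t := by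
    rw [ha, hb, hc]; unfold V5.Q; field_simp
  rw [← hb] at hβ
  rw [← hc] at hγ
  have e5 : x.ev (u + 1) v w * x.ev (u + k * -(γ * β)) (v + k * (β * (γ + β)))
      (w + k * (γ * (γ + β))) - x.ev u v w * x.ev (u + k * -(γ * β) + 1) (v + k * (β * (γ + β)))
      (w + k * (γ * (γ + β))) = (k * (γ + β) ^ 2) * x.Q := by
    unfold V5.ev tf
    rw [e4, e1, e2, e3, hβ, hγ]
    ring
  refine nonneg_of_mul_nonneg_right (a := k * (γ + β) ^ 2) ?_ (by positivity)
  linarith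

namespace Core

variable {a b c d e f : α} {X Y : Finset α} {xv nv : (α → ℝ) → V5}

theorem point (C : Core a b c d e f X Y xv nv) {y : α → ℝ} (hy : ∀ i, 0 < y i) {u v w p q r : ℝ}
    (hu : 0 < u) (hv : 0 < v) (hw : 0 < w) (hp : 0 < p) (hq : 0 < q) (hr : 0 < r) :
    ∃ z : α → ℝ, (∀ i, 0 < z i) ∧ (∀ g, g ≠ a → g ≠ b → g ≠ c → g ≠ d → g ≠ e → g ≠ f → z g = y g) ∧
      z a = u ∧ z b = v ∧ z c = w ∧ z d = p ∧ z e = q ∧ z f = r := by
  refine ⟨fun g => if g = a then u else if g = b then v else if g = c then w else if g = d then p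
    else if g = e then q else if g = f then r else y g, fun i => ?_, ?_, ?_, ?_, ?_, ?_, ?_, ?_⟩
  · have := hy i
    dsimp only
    split_ifs <;> assumption
  · intro g h1 h2 h3 h4 h5 h6
    simp only [h1, h2, h3, h4, h5, h6, if_false]
  · simp only [if_true]
  · simp only [C.ab.symm, if_true, if_false]
  · simp only [C.ac.symm, C.bc.symm, if_true, if_false]
  · simp only [C.ad.symm, C.bd.symm, C.cd.symm, if_true, if_false]
  · simp only [C.ae.symm, C.be.symm, C.ce.symm, C.de.symm, if_true, if_false]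
  · simp only [C.af.symm, C.bf.symm, C.cf.symm, C.df.symm, C.ef.symm, if_true, if_false]

theorem base (C : Core a b c d e f X Y xv nv) {y : α → ℝ} (hy : ∀ i, 0 < y i) {u v w p q r : ℝ}
    (hu : 0 < u) (hv : 0 < v) (hw : 0 < w) (hp : 0 < p) (hq : 0 < q) (hr : 0 < r) :
    ∃ (z : α → ℝ) (ε : ℝ), 0 < ε ∧ (∀ i, 0 < z i) ∧ (∀ g ∈ X, z g = y g) ∧
      nu d e f a e f z = u ∧ nu d e f b d f z = v ∧ nu d e f c d e z = w ∧
      z d = ε * p ∧ z e = ε * q ∧ z f = ε * r := by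
  obtain ⟨ε, he, h1, h2, h3⟩ := small (A := q * r / (p + q + r)) (B := p * r / (p + q + r))
    (C := p * q / (p + q + r)) hu hv hw (by positivity) (by positivity) (by positivity)
  obtain ⟨z, hz, k, k1, k2, k3, k4, k5, k6⟩ := C.point hy (sub_pos.2 h1) (sub_pos.2 h2)
    (sub_pos.2 h3) (mul_pos he hp) (mul_pos he hq) (mul_pos he hr)
  refine ⟨z, ε, he, hz, fun g hg => k g (fun h => C.aX (h ▸ hg)) (fun h => C.bX (h ▸ hg))
    (fun h => C.cX (h ▸ hg)) (fun h => C.dX (h ▸ hg)) (fun h => C.eX (h ▸ hg))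
    (fun h => C.fX (h ▸ hg)), ?_, ?_, ?_, k4, k5, k6⟩
  · unfold nu; rw [k1, k4, k5, k6]; field_simp; ring
  · unfold nu; rw [k2, k4, k5, k6]; field_simp; ring
  · unfold nu; rw [k3, k4, k5, k6]; field_simp; ring

theorem FK_up (C : Core a b c d e f X Y xv nv) {z : α → ℝ} (hz : ∀ i, 0 < z i) {g : α}
    (hg : g ∈ X) : FK a b c d e f xv (up z g 1) = (z d + z e + z f) *
      (xv (up z g 1)).ev (nu d e f a e f z) (nu d e f b d f z) (nu d e f c d e z) := by
  have k : ∀ i, i ∉ X → up z g 1 i = z i := fun i hi => up_ne z 1 fun h => hi (h ▸ hg)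
  rw [FK_eq _ _ _ _ _ _ _ (up_pos hz g zero_le_one)]
  unfold nu
  rw [k a C.aX, k b C.bX, k c C.cX, k d C.dX, k e C.eX, k f C.fX]

theorem xup (C : Core a b c d e f X Y xv nv) {y z : α → ℝ} (h : ∀ g ∈ X, z g = y g) (g : α) :
    ∀ i ∈ X, up z g 1 i = up y g 1 i := fun i hi => by unfold up; rw [h i hi]

theorem xout (C : Core a b c d e f X Y xv nv) (z : α → ℝ) {h : α} (hh : h ∉ X) (s : ℝ) :
    xv (up z h s) = xv z := C.xdep _ _ fun _ hi => up_ne z s fun k => hh (k ▸ hi)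

theorem nout (C : Core a b c d e f X Y xv nv) (z : α → ℝ) {h : α} (hh : h ∉ Y) (s : ℝ) :
    nv (up z h s) = nv z := C.ndep _ _ fun _ hi => up_ne z s fun k => hh (k ▸ hi)

theorem kxx (C : Core a b c d e f X Y xv nv) {y : α → ℝ} (hy : ∀ i, 0 < y i) {u v w : ℝ}
    (hu : 0 < u) (hv : 0 < v) (hw : 0 < w) {g h : α} (hg : g ∈ X) (hh : h ∈ X) (hgh : g ≠ h) :
    (xv y).ev u v w * (xv (up (up y g 1) h 1)).ev u v w ≤
      (xv (up y g 1)).ev u v w * (xv (up y h 1)).ev u v w := by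
  obtain ⟨z, ε, -, hz, k, k1, k2, k3, -⟩ := C.base hy hu hv hw one_pos one_pos one_pos
  have r := C.rayK g h hgh (by simp [hg]) (by simp [hh]) z hz
  have j : ∀ i, i ∉ X → up z g 1 i = z i := fun i hi => up_ne z 1 fun h => hi (h ▸ hg)
  unfold Ry at r
  rw [FK_eq _ _ _ _ _ _ _ hz, C.FK_up hz hg, C.FK_up hz hh, C.FK_up (up_pos hz g zero_le_one) hh]
    at r
  unfold nu at r k1 k2 k3
  rw [j a C.aX, j b C.bX, j c C.cX, j d C.dX, j e C.eX, j f C.fX, k1, k2, k3, C.xdep _ _ k,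
    C.xdep _ _ (C.xup k g), C.xdep _ _ (C.xup k h), C.xdep _ _ (C.xup (C.xup k g) h)] at r
  have hS : 0 < z d + z e + z f := by have := hz d; have := hz e; have := hz f; positivity
  refine le_of_mul_le_mul_left ?_ (mul_pos hS hS)
  linarith

theorem kxo (C : Core a b c d e f X Y xv nv) {z : α → ℝ} (hz : ∀ i, 0 < z i) {g h : α} (hg : g ∈ X)
    (hh : h = a ∨ h = b ∨ h = c ∨ h = d ∨ h = e ∨ h = f) {τa τb τc : ℝ}
    (h1 : nu d e f a e f (up z h 1) = nu d e f a e f z + τa)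
    (h2 : nu d e f b d f (up z h 1) = nu d e f b d f z + τb)
    (h3 : nu d e f c d e (up z h 1) = nu d e f c d e z + τc)
    (iso : τa * τb + τa * τc + τb * τc = 0) {y : α → ℝ} (k : ∀ g ∈ X, z g = y g) {u v w : ℝ}
    (k1 : nu d e f a e f z = u) (k2 : nu d e f b d f z = v) (k3 : nu d e f c d e z = w) :
    0 ≤ τa * ph (xv y) (xv (up y g 1)) u v w (xv y).a (xv (up y g 1)).a (v + w) +
      τb * ph (xv y) (xv (up y g 1)) u v w (xv y).b (xv (up y g 1)).b (u + w) +
      τc * ph (xv y) (xv (up y g 1)) u v w (xv y).c (xv (up y g 1)).c (u + v) := by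
  have hX : h ∉ X := by
    rcases hh with rfl | rfl | rfl | rfl | rfl | rfl
    exacts [C.aX, C.bX, C.cX, C.dX, C.eX, C.fX]
  have r := C.rayK g h (fun k => hX (k ▸ hg)) (by simp [hg]) (by tauto) z hz
  have hz' := up_pos hz h zero_le_one
  unfold Ry at r
  rw [up_comm z g h, FK_eq _ _ _ _ _ _ _ hz, C.FK_up hz hg, FK_eq _ _ _ _ _ _ _ hz', C.FK_up hz' hg,
    up_comm z h g, C.xout _ hX, C.xout _ hX, h1, h2, h3, k1, k2, k3, C.xdep _ _ k,
    C.xdep _ _ (C.xup k g)] at r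
  rw [← dir_eq _ _ _ _ _ iso, sub_nonneg]
  have hS : 0 < z d + z e + z f := by have := hz d; have := hz e; have := hz f; positivity
  have hS' : 0 < up z h 1 d + up z h 1 e + up z h 1 f := by
    have := hz' d; have := hz' e; have := hz' f; positivity
  refine le_of_mul_le_mul_left ?_ (mul_pos hS hS')
  linarith

theorem kdir (C : Core a b c d e f X Y xv nv) {y : α → ℝ} (hy : ∀ i, 0 < y i) {u v w : ℝ}
    (hu : 0 < u) (hv : 0 < v) (hw : 0 < w) {g : α} (hg : g ∈ X) {τa τb τc : ℝ}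
    (iso : τa * τb + τa * τc + τb * τc = 0) (s1 : 0 ≤ τb + τc) (s2 : 0 ≤ τa + τc)
    (s3 : 0 ≤ τa + τb) :
    (xv y).ev u v w * (xv (up y g 1)).ev (u + τa) (v + τb) (w + τc) ≤
      (xv (up y g 1)).ev u v w * (xv y).ev (u + τa) (v + τb) (w + τc) := by
  rw [← sub_nonneg, dir_eq _ _ _ _ _ iso]
  have ab := C.ab; have ac := C.ac; have ad := C.ad; have ae := C.ae; have af := C.af
  have bc := C.bc; have bd := C.bd; have be := C.be; have bf := C.bf; have cd := C.cd
  have ce := C.ce; have cf := C.cf; have de := C.de; have df := C.df; have ef := C.ef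
  obtain ⟨z, ε, -, hz, k, k1, k2, k3, -⟩ := C.base hy hu hv hw one_pos one_pos one_pos
  refine cone ?_ ?_ ?_ (fun q r hq hr => ?_) (fun p r hp hr => ?_) (fun p q hp hq => ?_) iso s1 s2 s3
  · have := C.kxo hz hg (h := a) (by simp) (τa := 1) (τb := 0) (τc := 0)
      (by simp [nu, up, ad.symm, ae.symm, af.symm]; ring)
      (by simp [nu, up, ab.symm, ad.symm, ae.symm, af.symm])
      (by simp [nu, up, ac.symm, ad.symm, ae.symm, af.symm]) (by ring) k k1 k2 k3
    linarith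
  · have := C.kxo hz hg (h := b) (by simp) (τa := 0) (τb := 1) (τc := 0)
      (by simp [nu, up, ab, bd.symm, be.symm, bf.symm])
      (by simp [nu, up, bd.symm, be.symm, bf.symm]; ring)
      (by simp [nu, up, bc.symm, bd.symm, be.symm, bf.symm]) (by ring) k k1 k2 k3
    linarith
  · have := C.kxo hz hg (h := c) (by simp) (τa := 0) (τb := 0) (τc := 1)
      (by simp [nu, up, ac, cd.symm, ce.symm, cf.symm])
      (by simp [nu, up, bc, cd.symm, ce.symm, cf.symm])
      (by simp [nu, up, cd.symm, ce.symm, cf.symm]; ring) (by ring) k k1 k2 k3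
    linarith
  · obtain ⟨z, ε, he, hz, k, k1, k2, k3, k4, k5, k6⟩ := C.base hy hu hv hw one_pos hq hr
    have hκ : 0 < ε / ((1 + q + r) * (ε * (1 + q + r) + 1)) := by positivity
    have := C.kxo hz hg (h := d) (by simp)
      (τa := ε / ((1 + q + r) * (ε * (1 + q + r) + 1)) * -(q * r))
      (τb := ε / ((1 + q + r) * (ε * (1 + q + r) + 1)) * (r * (q + r)))
      (τc := ε / ((1 + q + r) * (ε * (1 + q + r) + 1)) * (q * (q + r)))
      (by simp only [nu, up, ad, de.symm, df.symm, if_true, if_false, k4, k5, k6]; field_simp; ring)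
      (by simp only [nu, up, bd, de.symm, df.symm, if_true, if_false, k4, k5, k6]; field_simp; ring)
      (by simp only [nu, up, cd, de.symm, df.symm, if_true, if_false, k4, k5, k6]; field_simp; ring)
      (by ring) k k1 k2 k3
    refine nonneg_of_mul_nonneg_right ?_ hκ
    linarith
  · obtain ⟨z, ε, he, hz, k, k1, k2, k3, k4, k5, k6⟩ := C.base hy hu hv hw hp one_pos hr
    have hκ : 0 < ε / ((p + 1 + r) * (ε * (p + 1 + r) + 1)) := by positivity
    have := C.kxo hz hg (h := e) (by simp)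
      (τa := ε / ((p + 1 + r) * (ε * (p + 1 + r) + 1)) * (r * (p + r)))
      (τb := ε / ((p + 1 + r) * (ε * (p + 1 + r) + 1)) * -(p * r))
      (τc := ε / ((p + 1 + r) * (ε * (p + 1 + r) + 1)) * (p * (p + r)))
      (by simp only [nu, up, ae, de, ef.symm, if_true, if_false, k4, k5, k6]; field_simp; ring)
      (by simp only [nu, up, be, de, ef.symm, if_true, if_false, k4, k5, k6]; field_simp; ring)
      (by simp only [nu, up, ce, de, ef.symm, if_true, if_false, k4, k5, k6]; field_simp; ring)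
      (by ring) k k1 k2 k3
    refine nonneg_of_mul_nonneg_right ?_ hκ
    linarith
  · obtain ⟨z, ε, he, hz, k, k1, k2, k3, k4, k5, k6⟩ := C.base hy hu hv hw hp hq one_pos
    have hκ : 0 < ε / ((p + q + 1) * (ε * (p + q + 1) + 1)) := by positivity
    have := C.kxo hz hg (h := f) (by simp)
      (τa := ε / ((p + q + 1) * (ε * (p + q + 1) + 1)) * (q * (p + q)))
      (τb := ε / ((p + q + 1) * (ε * (p + q + 1) + 1)) * (p * (p + q)))
      (τc := ε / ((p + q + 1) * (ε * (p + q + 1) + 1)) * -(p * q))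
      (by simp only [nu, up, af, df, ef, if_true, if_false, k4, k5, k6]; field_simp; ring)
      (by simp only [nu, up, bf, df, ef, if_true, if_false, k4, k5, k6]; field_simp; ring)
      (by simp only [nu, up, cf, df, ef, if_true, if_false, k4, k5, k6]; field_simp; ring)
      (by ring) k k1 k2 k3
    refine nonneg_of_mul_nonneg_right ?_ hκ
    linarith

theorem kq (C : Core a b c d e f X Y xv nv) {y : α → ℝ} (hy : ∀ i, 0 < y i) : 0 ≤ (xv y).Q := by
  obtain ⟨p1, -, p2, p3⟩ := C.xpos y hy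
  have ab := C.ab; have ac := C.ac; have ad := C.ad; have ae := C.ae; have af := C.af
  have bd := C.bd; have cd := C.cd; have de := C.de; have df := C.df
  obtain ⟨q, hq'⟩ : ∃ q, q = 1 + (xv y).C / (xv y).t := ⟨_, rfl⟩
  obtain ⟨r, hr'⟩ : ∃ r, r = 1 + (xv y).B / (xv y).t := ⟨_, rfl⟩
  have hq : 0 < q := by rw [hq']; positivity
  have hr : 0 < r := by rw [hr']; positivity
  obtain ⟨z, ε, he, hz, k, k1, k2, k3, k4, k5, k6⟩ :=
    C.base hy one_pos one_pos one_pos one_pos hq hr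
  have hκ : 0 < ε / ((1 + q + r) * (ε * (1 + q + r) + 1)) := by positivity
  refine Q_nonneg p1 (u := 1) hκ hr' hq' (by positivity) ?_
  have h1 : nu d e f a e f (up z d 1) =
      nu d e f a e f z + ε / ((1 + q + r) * (ε * (1 + q + r) + 1)) * -(q * r) := by
    simp only [nu, up, ad, de.symm, df.symm, if_true, if_false, k4, k5, k6]; field_simp; ring
  have h2 : nu d e f b d f (up z d 1) =
      nu d e f b d f z + ε / ((1 + q + r) * (ε * (1 + q + r) + 1)) * (r * (q + r)) := by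
    simp only [nu, up, bd, de.symm, df.symm, if_true, if_false, k4, k5, k6]; field_simp; ring
  have h3 : nu d e f c d e (up z d 1) =
      nu d e f c d e z + ε / ((1 + q + r) * (ε * (1 + q + r) + 1)) * (q * (q + r)) := by
    simp only [nu, up, cd, de.symm, df.symm, if_true, if_false, k4, k5, k6]; field_simp; ring
  have j : ∀ z : α → ℝ, (∀ i, 0 < z i) → FK a b c d e f xv (up z a 1) = (z d + z e + z f) *
      (xv z).ev (nu d e f a e f z + 1) (nu d e f b d f z) (nu d e f c d e z) := by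
    intro z hz
    rw [FK_eq _ _ _ _ _ _ _ (up_pos hz a zero_le_one), C.xout _ C.aX]
    unfold nu
    rw [up_self, up_ne z 1 ab.symm, up_ne z 1 ac.symm, up_ne z 1 ad.symm, up_ne z 1 ae.symm,
      up_ne z 1 af.symm, add_right_comm (z a)]
  have r := C.rayK a d ad (by simp) (by simp) z hz
  have hz' := up_pos hz d zero_le_one
  unfold Ry at r
  rw [up_comm z a d, j z hz, j _ hz', FK_eq _ _ _ _ _ _ _ hz, FK_eq _ _ _ _ _ _ _ hz',
    C.xout _ C.dX, h1, h2, h3, k1, k2, k3, C.xdep _ _ k] at r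
  have hS : 0 < z d + z e + z f := by have := hz d; have := hz e; have := hz f; positivity
  have hS' : 0 < up z d 1 d + up z d 1 e + up z d 1 f := by
    have := hz' d; have := hz' e; have := hz' f; positivity
  refine le_of_mul_le_mul_left ?_ (mul_pos hS hS')
  linarith

end Core

end Pool.Agent.Lib.MP_c69b6d_co.G
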