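import Pool.Agent.Lib.MP_c69b6d_co.Defs

namespace Pool.Agent.Lib.MP_c69b6d_co.G

open Matroid

/-- Regular: represented over the reals by the columns of a totally unimodular matrix. -/
def Regular {α : Type} (N : Matroid α) : Prop :=
  ∃ (n : ℕ) (A : Matrix (Fin n) α ℝ), A.IsTotallyUnimodular ∧
    ∀ I ⊆ N.E, (N.Indep I ↔ LinearIndepOn ℝ (fun e i => A i e) I)

/-- `P` is glued from its restrictions to `X` and `Y` along `T = X ∩ Y`, and the ranks add up
as in a generalized parallel connection across a line. -/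
def Glue {α : Type} (P : Matroid α) (X Y T : Set α) : Prop :=
  P.E = X ∪ Y ∧ X ∩ Y = T ∧ P.eRk X + P.eRk Y = P.eRank + 2

/-- `N` is the cycle matroid of `K_4` with edges `φ 0, …, φ 5`: its bases are the triples other
than the four triangles `012`, `045`, `135`, `234`. -/
def IsK4 {α : Type} (N : Matroid α) (φ : Fin 6 → α) : Prop :=
  Function.Injective φ ∧ Set.range φ = N.E ∧
    ∀ S : Finset (Fin 6), N.IsBase (φ '' S) ↔
      S.card = 3 ∧ S ≠ {0, 1, 2} ∧ S ≠ {0, 4, 5} ∧ S ≠ {1, 3, 5} ∧ S ≠ {2, 3, 4}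

end Pool.Agent.Lib.MP_c69b6d_co.G
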