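import Pool.Agent.Lib.MP_c69b6d_co.G.Rank
import Pool.Agent.Lib.MP_c72610_co.Det

/-! From a totally unimodular representation to the determinant formula. -/

namespace Pool.Agent.Lib.MP_c69b6d_co.G

open Finset Matrix Pool.Agent.Lib.MP_c72610_co.Gr

variable {α : Type} [DecidableEq α]

/-- extension of an independent set. -/
theorem RK.extend {R : Finset α → ℕ} (h : RK R) {U : Finset α} (hU : R U = U.card) (S : Finset α) :
    ∃ J ⊆ S, R (U ∪ J) = (U ∪ J).card ∧ R (U ∪ J) = R (U ∪ S) := by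
  induction S using Finset.induction_on with
  | empty => exact ⟨∅, Subset.refl _, by simpa using hU, rfl⟩
  | insert e S he ih =>
    obtain ⟨J, hJ, h1, h2⟩ := ih
    have k1 := h.sub (U ∪ S) (U ∪ insert e J) (U ∪ insert e S) (U ∪ J) (by grind) (by grind)
      (by grind)
    have k2 : R (U ∪ S) ≤ R (U ∪ insert e S) := h.mono (by grind)
    have k3 : R (U ∪ insert e J) ≤ R (U ∪ insert e S) := h.mono (by grind)
    have k4 : R (U ∪ J) ≤ R (U ∪ insert e J) := h.mono (by grind)
    have k5 := h.le (U ∪ insert e J)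
    have k6 : (U ∪ insert e J).card ≤ (U ∪ J).card + 1 := by
      rw [union_insert]; exact card_insert_le _ _
    by_cases k : R (U ∪ insert e J) = R (U ∪ J)
    · exact ⟨J, by grind, h1, by omega⟩
    · exact ⟨insert e J, by grind, by omega, by omega⟩

theorem pol_pos {R : Finset α → ℕ} (h : RK R) {U : Finset α} (hU : R U = U.card) (S : Finset α)
    {n : ℕ} (hn : R (U ∪ S) = n) {y : α → ℝ} (hy : ∀ i, 0 < y i) : 0 < pol R n S U y := by
  obtain ⟨J, hJ, h1, h2⟩ := h.extend hU S
  refine sum_pos' (fun _ _ => mul_nonneg (ind_nonneg _ _ _) (prod_nonneg fun i _ => (hy i).le))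
    ⟨J, mem_powerset.2 hJ, ?_⟩
  unfold ind
  rw [if_pos ⟨by omega, by omega⟩, one_mul]
  exact prod_pos fun i _ => hy i

omit [DecidableEq α] in
theorem exists_enum {S : Finset α} [DecidableEq α] {q : ℕ} (h : S.card = q) :
    ∃ e : Fin q → α, Function.Injective e ∧ univ.image e = S := by
  refine ⟨fun i => ((S.equivFinOfCardEq h).symm i : α),
    Subtype.val_injective.comp (Equiv.injective _), ?_⟩
  ext x
  simp only [mem_image, mem_univ, true_and]
  exact ⟨fun ⟨i, hi⟩ => hi ▸ Subtype.prop _, fun hx => ⟨S.equivFinOfCardEq h ⟨x, hx⟩, by simp⟩⟩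

theorem exists_rows {n q : ℕ} (M : Matrix (Fin n) (Fin q) ℝ) (hM : ∀ x, M *ᵥ x = 0 → x = 0) :
    ∃ ρ : Fin q → Fin n, (M.submatrix ρ id).det ≠ 0 := by
  obtain ⟨c, h0, hc⟩ := exists_coef (fun i => M i)
  have e : MP_c72610_co.Gr.gram (fun i => M i) (fun _ => 1) = Mᵀ * M := by
    ext i j; simp [MP_c72610_co.Gr.gram, Matrix.mul_apply]
  have hd : (Mᵀ * M).det ≠ 0 := by
    intro h
    obtain ⟨x, hx, hx0⟩ := Matrix.exists_mulVec_eq_zero_iff.2 h
    refine hx (hM x ?_)
    have : (M *ᵥ x) ⬝ᵥ (M *ᵥ x) = 0 := by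
      rw [dotProduct_mulVec, vecMul_mulVec, dotProduct_comm, ← mulVec_transpose, transpose_mul,
        transpose_transpose, hx0, dotProduct_zero]
    exact dotProduct_self_eq_zero.1 this
  rw [← e, hc] at hd
  obtain ⟨S, -, hS⟩ := exists_ne_zero_of_sum_ne_zero hd
  have hS' : c S ≠ 0 := left_ne_zero_of_mul hS
  obtain ⟨ρ, hρ, rfl⟩ := exists_enum (S := S) (q := q) (by by_contra k; exact hS' (h0 S k))
  refine ⟨ρ, fun k => hS' ?_⟩
  rw [coef_eq _ h0 hc ρ hρ]
  exact pow_eq_zero_iff two_ne_zero |>.2 k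

theorem indep_enum {n q : ℕ} (A : Matrix (Fin n) α ℝ) {e : Fin q → α} (he : Function.Injective e) :
    LinearIndepOn ℝ (fun g i => A i g) ((univ.image e : Finset α) : Set α) ↔
      ∀ x, (A.submatrix id e) *ᵥ x = 0 → x = 0 := by
  rw [coe_image, coe_univ, Set.image_univ, linearIndepOn_range_iff he,
    Fintype.linearIndependent_iff]
  refine forall_congr' fun x => imp_congr (Iff.of_eq ?_) funext_iff.symm
  congr 1
  ext i
  simp [mulVec, dotProduct, mul_comm]

variable [Fintype α]

theorem exists_rep {R : Finset α → ℕ} (h : RK R) {Y : Finset α} {q n : ℕ} (hq : R Y = q)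
    (A : Matrix (Fin n) α ℝ) (hA : A.IsTotallyUnimodular)
    (hI : ∀ I ⊆ Y, (R I = I.card ↔ LinearIndepOn ℝ (fun g i => A i g) (I : Set α))) :
    ∃ ρ : Fin q → Fin n, ∀ y : α → ℝ,
      (MP_c72610_co.Gr.gram (fun g j => A (ρ j) g) (fun g => if g ∈ Y then y g else 0)).det = pol R q Y ∅ y := by
  obtain ⟨B, hB, h1, h2⟩ := h.extend (U := ∅) (by have := h.le ∅; simpa using this) Y
  rw [empty_union] at h1 h2
  rw [empty_union] at h2
  have hli := (hI B hB).1 h1
  have hsp : ∀ g ∈ Y, (fun i => A i g) ∈ Submodule.span ℝ ((fun g i => A i g) '' (B : Set α)) := by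
    intro g hg
    rw [hli.mem_span_iff]
    intro k
    by_contra hgB
    rw [← coe_insert, ← hI _ (insert_subset hg hB), card_insert_of_notMem (by simpa using hgB)] at k
    have := h.mono (insert_subset hg hB)
    omega
  obtain ⟨e0, he0, rfl⟩ := exists_enum (S := B) (q := q) (by omega)
  obtain ⟨ρ, hρ⟩ := exists_rows (A.submatrix id e0) ((indep_enum A he0).1 hli)
  have hz : ∀ g ∈ Y, ∃ z, (A.submatrix id e0) *ᵥ z = fun i => A i g := by
    intro g hg
    have := hsp g hg
    rw [coe_image, coe_univ, Set.image_univ, ← Set.range_comp,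
      Submodule.mem_span_range_iff_exists_fun] at this
    obtain ⟨z, hz⟩ := this
    refine ⟨z, ?_⟩
    rw [← hz]
    ext i
    simp [mulVec, dotProduct, mul_comm]
  refine ⟨ρ, fun y => ?_⟩
  obtain ⟨c, h0, hc⟩ := exists_coef (fun g j => A (ρ j) g)
  have key : ∀ S ⊆ Y, c S = ind R q S := by
    intro S hS
    by_cases hk : S.card = q
    swap
    · unfold ind; rw [h0 S hk, if_neg (fun k => hk k.1)]
    obtain ⟨e, he, rfl⟩ := exists_enum hk
    rw [coef_eq _ h0 hc e he]
    have e1 : (Matrix.of fun i => fun j => A (ρ j) (e i)) = (A.submatrix ρ e)ᵀ := rfl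
    rw [e1, det_transpose]
    have k1 : R (univ.image e) = q ↔ (A.submatrix ρ e).det ≠ 0 := by
      rw [Ne, ← Matrix.exists_mulVec_eq_zero_iff]
      refine (Iff.of_eq (congrArg _ hk.symm)).trans ((hI _ hS).trans ((indep_enum A he).trans ?_))
      constructor
      · rintro k ⟨x, hx, hx0⟩
        choose z hz' using fun i : Fin q => hz (e i) (hS (mem_image_of_mem _ (mem_univ _)))
        have e2 : A.submatrix id e = A.submatrix id e0 * (Matrix.of z)ᵀ := by
          ext i j
          have := congrFun (hz' j) i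
          simpa [Matrix.mul_apply, mulVec, dotProduct] using this.symm
        have e3 : A.submatrix ρ e = (A.submatrix id e0).submatrix ρ id * (Matrix.of z)ᵀ := by
          ext i j
          exact congrFun (congrFun e2 (ρ i)) j
        rw [e3, ← mulVec_mulVec] at hx0
        have e4 : (Matrix.of z)ᵀ *ᵥ x = 0 := by
          by_contra k'
          exact hρ (Matrix.exists_mulVec_eq_zero_iff.1 ⟨_, k', hx0⟩)
        exact hx (k x (by rw [e2, ← mulVec_mulVec, e4, mulVec_zero]))
      · intro k x hx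
        by_contra k'
        exact k ⟨x, k', funext fun i => congrFun hx (ρ i)⟩
    obtain ⟨s, hs⟩ := (isTotallyUnimodular_iff A).1 hA q ρ e
    unfold ind
    by_cases k2 : (A.submatrix ρ e).det = 0
    · rw [if_neg (fun k => k1.1 k.2 k2), k2]; norm_num
    · rw [if_pos ⟨hk, k1.2 k2⟩]
      rw [← hs] at k2 ⊢
      rcases s <;> simp at k2 ⊢
  rw [hc]
  unfold pol
  symm
  refine sum_subset_zero_on_sdiff (subset_univ _) (fun S hS => ?_) (fun S hS => ?_)
  · obtain ⟨g, hg, hg'⟩ := not_subset.1 (fun k => (mem_sdiff.1 hS).2 (mem_powerset.2 k))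
    rw [prod_eq_zero hg (if_neg hg'), mul_zero]
  · rw [empty_union, key S (mem_powerset.1 hS),
      prod_congr rfl fun g hg => if_pos (mem_powerset.1 hS hg)]

omit [Fintype α] in
theorem exists_rel {R : Finset α → ℕ} {a b c : α} (t : Tri R a b c) {n : ℕ}
    (A : Matrix (Fin n) α ℝ)
    (hI : ∀ I ⊆ ({a, b, c} : Finset α),
      (R I = I.card ↔ LinearIndepOn ℝ (fun g i => A i g) (I : Set α))) :
    ∃ l m : ℝ, ∀ i, A i c = l * A i a + m * A i b := by
  have hli := (hI {a, b} (by grind)).1 (by rw [t.rab, card_pair t.ab])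
  have hc : c ∉ ({a, b} : Finset α) := by have := t.ac; have := t.bc; grind
  have hsp : (fun i => A i c) ∈
      Submodule.span ℝ ((fun g i => A i g) '' (({a, b} : Finset α) : Set α)) := by
    rw [hli.mem_span_iff]
    intro k
    have e : insert c ({a, b} : Finset α) = {a, b, c} := by grind
    rw [← coe_insert, ← hI _ (by grind), card_insert_of_notMem hc, card_pair t.ab, e, t.rT] at k
    omega
  rw [coe_pair, Set.image_pair, Submodule.mem_span_pair] at hsp
  obtain ⟨l, m, hlm⟩ := hsp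
  exact ⟨l, m, fun i => (congrFun hlm i).symm⟩

end Pool.Agent.Lib.MP_c69b6d_co.G
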