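import Pool.Agent.Lib.MP_c69b6d_co.G.Alg
import Pool.Agent.Lib.MP_c69b6d_co.G.Rep

/-! Determinant lemmas (the first section repeats lemmas of `F/ThmAa`), and the facts about the
regular side of the gluing. -/

namespace Pool.Agent.Lib.MP_c69b6d_co.G

open Finset

section Mat

variable {ι : Type} [Fintype ι] [DecidableEq ι]

/-- the bilinear form of the inverse matrix. -/
noncomputable def bf (H : Matrix ι ι ℂ) (u v : ι → ℂ) : ℂ := ∑ l, (∑ k, u k * H⁻¹ k l) * v l

theorem det_two {H N : Matrix ι ι ℂ} (hH : H.det ≠ 0) (u v : ι → ℂ) (a b c d : ℂ)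
    (h : ∀ k l, N k l = H k l + a * u k * u l + b * u k * v l + c * v k * u l + d * v k * v l) :
    N.det = H.det * (1 + a * bf H u u + b * bf H v u + c * bf H u v + d * bf H v v +
      (a * d - b * c) * (bf H u u * bf H v v - bf H u v * bf H v u)) := by
  let U : Matrix ι (Fin 2) ℂ := Matrix.of fun k i => ![u k, v k] i
  let V : Matrix (Fin 2) ι ℂ := Matrix.of fun i l => ![a * u l + b * v l, c * u l + d * v l] i
  have e : N = H + U * V := by
    ext k l
    simp [U, V, Matrix.mul_apply, Fin.sum_univ_two, h]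
    ring
  have key : ∀ (p q : ℂ) (w : ι → ℂ),
      ∑ l, (∑ k, (p * u k + q * v k) * H⁻¹ k l) * w l = p * bf H u w + q * bf H v w := by
    intro p q w
    simp only [bf, mul_sum, ← sum_add_distrib, sum_mul]
    refine sum_congr rfl fun l _ => sum_congr rfl fun k _ => by ring
  rw [e, Matrix.det_add_mul U V (Ne.isUnit hH), Matrix.det_fin_two]
  simp only [Matrix.add_apply, Matrix.mul_apply, U, V, Matrix.of_apply, Matrix.cons_val_zero,
    Matrix.cons_val_one, Matrix.one_apply_eq, key]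
  rw [Matrix.one_apply_ne (by decide), Matrix.one_apply_ne (by decide)]
  ring

theorem bf_symm {H : Matrix ι ι ℂ} (hH : H.transpose = H) (u v : ι → ℂ) :
    bf H u v = bf H v u := by
  have h1 : ∀ k l, H⁻¹ k l = H⁻¹ l k := by
    intro k l
    have := Matrix.transpose_nonsing_inv H
    rw [hH] at this
    exact (congrFun (congrFun this k) l).symm
  simp only [bf, sum_mul]
  rw [sum_comm]
  refine sum_congr rfl fun l _ => sum_congr rfl fun k _ => ?_
  rw [h1 l k]; ring

theorem bf_conj {H : Matrix ι ι ℂ} (hH : H.conjTranspose = H) (u v : ι → ℝ) :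
    bf H (fun k => v k) (fun k => u k) = (starRingEnd ℂ) (bf H (fun k => u k) (fun k => v k)) := by
  have h1 : ∀ k l, H⁻¹ k l = (starRingEnd ℂ) (H⁻¹ l k) := by
    intro k l
    have := Matrix.conjTranspose_nonsing_inv H
    rw [hH] at this
    exact (congrFun (congrFun this k) l).symm
  simp only [bf, sum_mul, map_sum, map_mul, Complex.conj_ofReal]
  rw [sum_comm]
  refine sum_congr rfl fun l _ => sum_congr rfl fun k _ => ?_
  rw [h1 l k]; ring

theorem herm_ineq {H N1 N2 N3 : Matrix ι ι ℂ} (hH : H.conjTranspose = H) (u v : ι → ℝ)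
    {σ σ' : ℝ} (hσ : 0 ≤ σ) (hσ' : 0 ≤ σ')
    (h1 : ∀ k l, N1 k l = H k l + (σ * u k * u l : ℝ))
    (h2 : ∀ k l, N2 k l = H k l + (σ' * v k * v l : ℝ))
    (h3 : ∀ k l, N3 k l = H k l + (σ * u k * u l : ℝ) + (σ' * v k * v l : ℝ))
    {d0 d1 d2 d3 : ℝ} (e0 : H.det = d0) (e1 : N1.det = d1) (e2 : N2.det = d2) (e3 : N3.det = d3)
    (hd : d0 ≠ 0) : d0 * d3 ≤ d1 * d2 := by
  have hH0 : H.det ≠ 0 := by rw [e0]; exact_mod_cast hd
  have k1 := det_two (N := N1) hH0 (fun k => u k) (fun k => v k) σ 0 0 0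
    (fun k l => by rw [h1]; push_cast; ring)
  have k2 := det_two (N := N2) hH0 (fun k => u k) (fun k => v k) 0 0 0 σ'
    (fun k l => by rw [h2]; push_cast; ring)
  have k3 := det_two (N := N3) hH0 (fun k => u k) (fun k => v k) σ 0 0 σ'
    (fun k l => by rw [h3]; push_cast; ring)
  rw [bf_conj hH u v] at k3
  rw [e0] at k1 k2 k3
  rw [e1] at k1
  rw [e2] at k2
  rw [e3] at k3
  set c := bf H (fun k => u k) (fun k => v k)
  have k4 : ((d1 * d2 - d0 * d3 : ℝ) : ℂ) = ((d0 ^ 2 * σ * σ' * Complex.normSq c : ℝ) : ℂ) := by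
    push_cast
    rw [k1, k2, k3, ← Complex.mul_conj]
    ring
  have k5 : d1 * d2 - d0 * d3 = d0 ^ 2 * σ * σ' * Complex.normSq c := by exact_mod_cast k4
  have k6 : 0 ≤ d0 ^ 2 * σ * σ' * Complex.normSq c :=
    mul_nonneg (by positivity) (Complex.normSq_nonneg c)
  linarith

end Mat

theorem five {n : V5} {u v w l m : ℝ} {x z k : ℂ}
    (M : ∀ s t r : ℝ, ((n.ev (u + s) (v + t) (w + r) : ℝ) : ℂ) = (n.ev u v w : ℝ) *
      (1 + (s + r * l ^ 2) * x + 2 * r * l * m * k + (t + r * m ^ 2) * z +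
        ((s + r * l ^ 2) * (t + r * m ^ 2) - (r * l * m) ^ 2) * (x * z - k ^ 2))) :
    (n.t : ℂ) = (n.ev u v w : ℝ) * (x * z - k ^ 2) ∧ n.t * (l ^ 2 - 1) = 0 ∧
      n.t * (m ^ 2 - 1) = 0 ∧ (l ^ 2 = 1 → m ^ 2 = 1 → n.Q = 0) := by
  have h1 := M 1 0 0
  have h2 := M 0 1 0
  have h3 := M 0 0 1
  have h4 := M 1 1 0
  have h5 := M 1 0 1
  have h6 := M 0 1 1
  generalize hD : ((n.ev u v w : ℝ) : ℂ) = D at *
  unfold V5.ev tf at h1 h2 h3 h4 h5 h6 hD
  push_cast at h1 h2 h3 h4 h5 h6 hD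
  have e1 : (n.t : ℂ) = D * (x * z - k ^ 2) := by linear_combination h4 - h1 - h2 + hD
  have e2 : (n.t : ℂ) = D * m ^ 2 * (x * z - k ^ 2) := by linear_combination h5 - h1 - h3 + hD
  have e3 : (n.t : ℂ) = D * l ^ 2 * (x * z - k ^ 2) := by linear_combination h6 - h2 - h3 + hD
  refine ⟨e1, ?_, ?_, fun hl hm => ?_⟩
  · have : (n.t : ℂ) * ((l : ℂ) ^ 2 - 1) = 0 := by linear_combination (l : ℂ) ^ 2 * e1 - e3
    exact_mod_cast this
  · have : (n.t : ℂ) * ((m : ℂ) ^ 2 - 1) = 0 := by linear_combination (m : ℂ) ^ 2 * e1 - e2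
    exact_mod_cast this
  · have hl' : (l : ℂ) ^ 2 = 1 := by exact_mod_cast hl
    have hm' : (m : ℂ) ^ 2 = 1 := by exact_mod_cast hm
    have f1 : (n.a : ℂ) + n.t * (v + w) = D * x := by linear_combination h1 - hD
    have f2 : (n.b : ℂ) + n.t * (u + w) = D * z := by linear_combination h2 - hD
    have f3 : (n.c : ℂ) + n.t * (u + v) = D * (x + 2 * l * m * k + z) := by
      linear_combination h3 - hD + D * x * hl' + D * z * hm'
    have f4 : (n.Q : ℂ) = ((n.a : ℂ) + n.t * (v + w)) * ((n.b : ℂ) + n.t * (u + w)) -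
        ((((n.a : ℂ) + n.t * (v + w)) + ((n.b : ℂ) + n.t * (u + w)) -
          ((n.c : ℂ) + n.t * (u + v))) / 2) ^ 2 - D * n.t := by
      unfold V5.Q V5.A V5.B V5.C
      push_cast
      linear_combination (-(n.t : ℂ)) * hD
    rw [f1, f2, f3, e1] at f4
    have : (n.Q : ℂ) = 0 := by
      linear_combination f4 - D ^ 2 * k ^ 2 * m ^ 2 * hl' - D ^ 2 * k ^ 2 * hm'
    exact_mod_cast this

variable {α : Type} [DecidableEq α]

/-- raise the weight of `e` by `s`. -/
def up (y : α → ℝ) (e : α) (s : ℝ) : α → ℝ := fun g => y g + if g = e then s else 0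

theorem up_pos {y : α → ℝ} (hy : ∀ i, 0 < y i) (e : α) {s : ℝ} (hs : 0 ≤ s) (i : α) :
    0 < up y e s i := by
  unfold up; have := hy i; split_ifs <;> linarith

theorem up_ne (y : α → ℝ) {e g : α} (s : ℝ) (h : g ≠ e) : up y e s g = y g := by
  unfold up; rw [if_neg h, add_zero]

theorem up_self (y : α → ℝ) (e : α) (s : ℝ) : up y e s e = y e + s := by
  unfold up; rw [if_pos rfl]

variable [Fintype α] {q : ℕ}

/-- the Hermitian matrix of the regular side. -/
noncomputable def Hm (v : α → Fin q → ℝ) (Y : Finset α) (a b : α) (y : α → ℝ) (θ : ℝ) :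
    Matrix (Fin q) (Fin q) ℂ := fun k l =>
  ((MP_c72610_co.Gr.gram v (fun g => if g ∈ Y then y g else 0) k l : ℝ) : ℂ) +
    Complex.I * θ * (v a k * v b l - v b k * v a l)

theorem Hm_up (v : α → Fin q → ℝ) {Y : Finset α} (a b : α) (y : α → ℝ) (θ : ℝ) {e : α} (he : e ∈ Y)
    (s : ℝ) (k l : Fin q) :
    Hm v Y a b (up y e s) θ k l = Hm v Y a b y θ k l + (s * v e k * v e l : ℝ) := by
  have : MP_c72610_co.Gr.gram v (fun g => if g ∈ Y then up y e s g else 0) k l =
      MP_c72610_co.Gr.gram v (fun g => if g ∈ Y then y g else 0) k l + s * v e k * v e l := by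
    have e1 : ∀ g, (if g ∈ Y then up y e s g else 0) * v g k * v g l =
        (if g ∈ Y then y g else 0) * v g k * v g l + if g = e then s * v e k * v e l else 0 := by
      intro g
      by_cases h : g = e
      · subst h; rw [if_pos he, if_pos he, if_pos rfl, up_self]; ring
      · rw [up_ne y s h, if_neg h, add_zero]
    simp only [MP_c72610_co.Gr.gram, Matrix.of_apply, e1, sum_add_distrib, sum_ite_eq', mem_univ,
      if_true]
  unfold Hm
  rw [this]; push_cast; ring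

theorem Hm_herm (v : α → Fin q → ℝ) (Y : Finset α) (a b : α) (y : α → ℝ) (θ : ℝ) :
    (Hm v Y a b y θ).conjTranspose = Hm v Y a b y θ := by
  ext k l
  have : MP_c72610_co.Gr.gram v (fun g => if g ∈ Y then y g else 0) l k =
      MP_c72610_co.Gr.gram v (fun g => if g ∈ Y then y g else 0) k l :=
    sum_congr rfl fun g _ => by ring
  simp only [Matrix.conjTranspose_apply, Hm, this, star_add, star_mul, star_sub, Complex.star_def,
    Complex.conj_ofReal, Complex.conj_I]
  ring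

theorem Hm_symm (v : α → Fin q → ℝ) (Y : Finset α) (a b : α) (y : α → ℝ) :
    (Hm v Y a b y 0).transpose = Hm v Y a b y 0 := by
  ext k l
  have : MP_c72610_co.Gr.gram v (fun g => if g ∈ Y then y g else 0) l k =
      MP_c72610_co.Gr.gram v (fun g => if g ∈ Y then y g else 0) k l :=
    sum_congr rfl fun g _ => by ring
  simp [Matrix.transpose_apply, Hm, this]

theorem Hm_zero (v : α → Fin q → ℝ) (Y : Finset α) (a b : α) (y : α → ℝ) :
    (Hm v Y a b y 0).det =
      ((MP_c72610_co.Gr.gram v (fun g => if g ∈ Y then y g else 0)).det : ℝ) := by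
  have := (Complex.ofRealHom.map_det
    (MP_c72610_co.Gr.gram v (fun g => if g ∈ Y then y g else 0))).symm
  refine Eq.trans ?_ this
  congr 1
  ext k l
  simp [Hm]

/-- the determinantal description of the regular side. -/
structure DR (v : α → Fin q → ℝ) (Y : Finset α) (a b c : α) (l m : ℝ) (nv : (α → ℝ) → V5) :
    Prop where
  ab : a ≠ b
  ac : a ≠ c
  bc : b ≠ c
  aY : a ∈ Y
  bY : b ∈ Y
  cY : c ∈ Y
  rel : ∀ k, v c k = l * v a k + m * v b k
  det : ∀ y, (MP_c72610_co.Gr.gram v (fun g => if g ∈ Y then y g else 0)).det =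
    (nv y).ev (y a) (y b) (y c)
  inv : ∀ y s t r, nv (up (up (up y a s) b t) c r) = nv y

variable {v : α → Fin q → ℝ} {Y : Finset α} {a b c : α} {l m : ℝ} {nv : (α → ℝ) → V5}

theorem DR.main (d : DR v Y a b c l m nv) {y : α → ℝ} (hy : (nv y).ev (y a) (y b) (y c) ≠ 0) :
    (∀ θ : ℝ, (Hm v Y a b y θ).det =
      (((nv y).ev (y a) (y b) (y c) - θ ^ 2 * (nv y).t : ℝ) : ℂ)) ∧
    (nv y).t * (l ^ 2 - 1) = 0 ∧ (nv y).t * (m ^ 2 - 1) = 0 ∧
      (l ^ 2 = 1 → m ^ 2 = 1 → (nv y).Q = 0) := by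
  have h0 : (Hm v Y a b y 0).det = ((nv y).ev (y a) (y b) (y c) : ℝ) := by rw [Hm_zero, d.det]
  have h1 : (Hm v Y a b y 0).det ≠ 0 := by rw [h0]; exact_mod_cast hy
  have sy := bf_symm (Hm_symm v Y a b y) (fun k => v b k) (fun k => v a k)
  have M := five (n := nv y) (u := y a) (v := y b) (w := y c) (l := l) (m := m)
    (x := bf (Hm v Y a b y 0) (fun k => v a k) (fun k => v a k))
    (z := bf (Hm v Y a b y 0) (fun k => v b k) (fun k => v b k))
    (k := bf (Hm v Y a b y 0) (fun k => v a k) (fun k => v b k)) (fun s t r => by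
      have k1 := det_two (N := Hm v Y a b (up (up (up y a s) b t) c r) 0) h1 (fun k => v a k)
        (fun k => v b k) (s + r * l ^ 2) (r * l * m) (r * l * m) (t + r * m ^ 2) (fun k k' => by
          rw [Hm_up v a b _ 0 d.cY, Hm_up v a b _ 0 d.bY, Hm_up v a b _ 0 d.aY, d.rel, d.rel]
          push_cast; ring)
      rw [Hm_zero, d.det, d.inv, up_ne _ _ d.ac, up_ne _ _ d.ab, up_self, up_ne _ _ d.bc, up_self,
        up_ne _ _ d.ab.symm, up_self, up_ne _ _ d.bc.symm, up_ne _ _ d.ac.symm, h0, sy] at k1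
      rw [k1]; ring)
  refine ⟨fun θ => ?_, M.2⟩
  have k1 := det_two (N := Hm v Y a b y θ) h1 (fun k => v a k) (fun k => v b k) 0
    (Complex.I * θ) (-(Complex.I * θ)) 0 (fun k k' => by simp only [Hm]; push_cast; ring)
  rw [k1, h0, sy]
  push_cast
  rw [M.1]
  linear_combination ((nv y).ev (y a) (y b) (y c) : ℝ) * (θ : ℂ) ^ 2 *
    (bf (Hm v Y a b y 0) (fun k => v a k) (fun k => v a k) *
      bf (Hm v Y a b y 0) (fun k => v b k) (fun k => v b k) -
      bf (Hm v Y a b y 0) (fun k => v a k) (fun k => v b k) ^ 2) * Complex.I_sq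

/-- the shifted generating polynomial of the regular side. -/
def Gt (nv : (α → ℝ) → V5) (a b c : α) (x : ℝ) (y : α → ℝ) : ℝ :=
  (nv y).ev (y a) (y b) (y c) - x * (nv y).t

theorem DR.ray (d : DR v Y a b c l m nv)
    (hp : ∀ y : α → ℝ, (∀ i, 0 < y i) → 0 < (nv y).ev (y a) (y b) (y c)) {x : ℝ} (hx : 0 ≤ x)
    {e f : α} (he : e ∈ Y) (hf : f ∈ Y) {y : α → ℝ} (hy : ∀ i, 0 < y i) (hG : Gt nv a b c x y ≠ 0) :
    Gt nv a b c x y * Gt nv a b c x (up (up y e 1) f 1) ≤
      Gt nv a b c x (up y e 1) * Gt nv a b c x (up y f 1) := by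
  have k : ∀ z : α → ℝ, (∀ i, 0 < z i) → (Hm v Y a b z √x).det = (Gt nv a b c x z : ℝ) := by
    intro z hz
    rw [(d.main (hp z hz).ne').1, Real.sq_sqrt hx]; rfl
  have p1 := up_pos hy e zero_le_one
  exact herm_ineq (Hm_herm v Y a b y √x) (v e) (v f) zero_le_one zero_le_one
    (Hm_up v a b y _ he 1) (Hm_up v a b y _ hf 1)
    (fun k l => by rw [Hm_up v a b _ _ hf, Hm_up v a b _ _ he]) (k y hy) (k _ p1)
    (k _ (up_pos hy f zero_le_one)) (k _ (up_pos p1 f zero_le_one)) hG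

end Pool.Agent.Lib.MP_c69b6d_co.G
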