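import Pool.Agent.Lib.MP_c69b6d_co.G.Side
import Pool.Agent.Lib.MP_c69b6d_co.G.Defs

/-! From matroids to rank functions, and the theorem. -/

namespace Pool.Agent.Lib.MP_c69b6d_co.G

open Finset
open scoped Matroid

variable {α : Type} [Fintype α]

/-- the rank as a natural number. -/
noncomputable def rs (M : Matroid α) (X : Set α) : ℕ := (M.eRk X).toNat

noncomputable def rk (M : Matroid α) (A : Finset α) : ℕ := rs M A

theorem rs_cast (M : Matroid α) (X : Set α) : (rs M X : ℕ∞) = M.eRk X :=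
  ENat.coe_toNat ((M.eRk_le_encard X).trans_lt (Set.toFinite X).encard_lt_top).ne

theorem rk_indep (M : Matroid α) (A : Finset α) : rk M A = A.card ↔ M.Indep A := by
  rw [Matroid.indep_iff_eRk_eq_encard_of_finite (Set.toFinite _), ← rs_cast,
    Set.encard_coe_eq_coe_finsetCard, Nat.cast_inj]
  rfl

theorem rk_base (M : Matroid α) (A : Finset α) :
    (A.card = rs M M.E ∧ rk M A = rs M M.E) ↔ M.IsBase A := by
  constructor
  · rintro ⟨h1, h2⟩
    refine ((rk_indep M A).1 (h2.trans h1.symm)).isBase_of_eRk_ge (Set.toFinite _) ?_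
    rw [M.eRank_def, ← rs_cast, ← rs_cast, ← h2]
    rfl
  · intro h
    have h1 := (rk_indep M A).2 h.indep
    have h2 : rk M A = rs M M.E := by
      unfold rk rs; rw [h.eRk_eq_eRank, M.eRank_def]
    exact ⟨h1.symm.trans h2, h2⟩

variable [DecidableEq α]

theorem rk_RK (M : Matroid α) : RK (rk M) := by
  refine ⟨fun A => ?_, fun A B C D h1 h2 h3 => ?_⟩
  · have := M.eRk_le_encard A
    rw [← rs_cast, Set.encard_coe_eq_coe_finsetCard] at this
    exact_mod_cast this
  · have k1 := M.eRk_inter_add_eRk_union_le A B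
    have k2 : M.eRk C ≤ M.eRk (A ∪ B) := M.eRk_mono (by rw [← coe_union]; exact_mod_cast h1)
    have k3 : M.eRk D ≤ M.eRk (A ∩ B) :=
      M.eRk_mono (Set.subset_inter (by exact_mod_cast h2) (by exact_mod_cast h3))
    have k4 : M.eRk C + M.eRk D ≤ M.eRk A + M.eRk B := by
      rw [add_comm]; exact (add_le_add k3 k2).trans k1
    rw [← rs_cast, ← rs_cast, ← rs_cast, ← rs_cast] at k4
    exact_mod_cast k4

theorem W_pol (M : Matroid α) {E : Finset α} (hE : (E : Set α) = M.E) (y : α → ℝ) :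
    W M y ∅ = pol (rk M) (rs M M.E) E ∅ y := by
  unfold W pol
  symm
  refine sum_subset_zero_on_sdiff (subset_univ _) (fun S hS => ?_) (fun S _ => ?_)
  · refine if_neg fun k => (mem_sdiff.1 hS).2 (mem_powerset.2 ?_)
    have := k.1.subset_ground
    rw [← hE] at this
    exact_mod_cast this
  · unfold ind
    rw [empty_union]
    by_cases k : M.IsBase S
    · rw [if_pos ((rk_base M S).2 k), if_pos ⟨k, Set.empty_subset _⟩, one_mul]
    · rw [if_neg fun k' => k ((rk_base M S).1 k'), if_neg fun k' => k k'.1, zero_mul]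

theorem W_scale (M : Matroid α) (y : α → ℝ) (e f : α) (s t : ℝ) :
    W M (fun g => y g * ((if g = e then 1 + s else 1) * if g = f then 1 + t else 1)) ∅ =
      W M y ∅ + s * W M y {e} + t * W M y {f} + s * t * W M y {e, f} := by
  unfold W
  simp only [mul_sum, ← sum_add_distrib]
  refine sum_congr rfl fun S _ => ?_
  rw [prod_mul_distrib, prod_mul_distrib, prod_ite_eq', prod_ite_eq']
  by_cases k : M.IsBase S <;> by_cases h : e ∈ S <;> by_cases h' : f ∈ S <;>
    simp [k, h, h', Set.insert_subset_iff] <;> ring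

theorem ry_iff (M : Matroid α) {y : α → ℝ} (hy : ∀ i, 0 < y i) {e f : α} (hef : e ≠ f) :
    Ry (fun z => W M z ∅) e f y ↔ 0 ≤ W M y {e} * W M y {f} - W M y {e, f} * W M y ∅ := by
  have he := hy e
  have hf := hy f
  have k : ∀ s t : ℝ, up (up y e s) f t = fun g => y g *
      ((if g = e then 1 + s / y e else 1) * if g = f then 1 + t / y f else 1) := by
    intro s t
    funext g
    unfold up
    by_cases h : g = e
    · subst h; simp only [if_true, if_neg hef]; field_simp; ring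
    · by_cases h' : g = f
      · subst h'; simp only [if_true, if_neg h]; field_simp; ring
      · simp only [if_neg h, if_neg h']; ring
  have k1 : up y e 1 = up (up y e 1) f 0 := by funext g; simp [up]
  have k2 : up y f 1 = up (up y e 0) f 1 := by funext g; simp [up]
  unfold Ry
  beta_reduce
  rw [← sub_nonneg, k, k1, k, k2, k, W_scale, W_scale, W_scale]
  have e1 : (W M y ∅ + 1 / y e * W M y {e} + 0 / y f * W M y {f} + 1 / y e * (0 / y f) * W M y {e, f}) *
      (W M y ∅ + 0 / y e * W M y {e} + 1 / y f * W M y {f} + 0 / y e * (1 / y f) * W M y {e, f}) -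
      W M y ∅ * (W M y ∅ + 1 / y e * W M y {e} + 1 / y f * W M y {f} +
        1 / y e * (1 / y f) * W M y {e, f}) =
      (1 / y e * (1 / y f)) * (W M y {e} * W M y {f} - W M y {e, f} * W M y ∅) := by ring
  rw [e1]
  exact mul_nonneg_iff_of_pos_left (by positivity)

open Classical in
/-- the elements of a side off the triangle. -/
noncomputable def fs (X : Set α) (a b c : α) : Finset α :=
  univ.filter fun g => g ∈ X ∧ g ≠ a ∧ g ≠ b ∧ g ≠ c

theorem mem_fs {X : Set α} {a b c g : α} : g ∈ fs X a b c ↔ g ∈ X ∧ g ≠ a ∧ g ≠ b ∧ g ≠ c := by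
  simp [fs]

theorem coe_fs {X : Set α} {a b c : α} (h : ({a, b, c} : Set α) ⊆ X) :
    (({a, b, c} ∪ fs X a b c : Finset α) : Set α) = X := by
  ext g
  have := @h g
  simp only [coe_union, coe_insert, coe_singleton, Set.mem_union, Set.mem_insert_iff,
    Set.mem_singleton_iff, mem_coe, mem_fs] at this ⊢
  tauto

theorem gd_of_glue {M : Matroid α} {X Y : Set α} {a b c : α} (h : Glue M X Y {a, b, c}) :
    Gd (rk M) a b c (fs X a b c) (fs Y a b c) (rs M X) (rs M Y) (rs M M.E) ∧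
      ((insert a (insert b (insert c (fs X a b c ∪ fs Y a b c))) : Finset α) : Set α) = M.E := by
  obtain ⟨h1, h2, h3⟩ := h
  have hX : ({a, b, c} : Set α) ⊆ X := h2 ▸ Set.inter_subset_left
  have hY : ({a, b, c} : Set α) ⊆ Y := h2 ▸ Set.inter_subset_right
  have e : (({a, b, c} ∪ (fs X a b c ∪ fs Y a b c) : Finset α) : Set α) = M.E := by
    rw [union_union_distrib_left, coe_union, coe_fs hX, coe_fs hY, h1]
  refine ⟨⟨?_, by simp [mem_fs], by simp [mem_fs], by simp [mem_fs], by simp [mem_fs],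
    by simp [mem_fs], by simp [mem_fs], ?_, ?_, ?_, ?_⟩, ?_⟩
  · rw [disjoint_left]
    intro g k1 k2
    rw [mem_fs] at k1 k2
    have : g ∈ X ∩ Y := ⟨k1.1, k2.1⟩
    rw [h2] at this
    simp only [Set.mem_insert_iff, Set.mem_singleton_iff] at this
    tauto
  · unfold rk; rw [coe_fs hX]
  · unfold rk; rw [coe_fs hY]
  · unfold rk; rw [e]
  · rw [M.eRank_def, ← rs_cast, ← rs_cast, ← rs_cast] at h3
    exact_mod_cast h3
  · rw [← e]; congr 1; grind

omit [Fintype α] in
theorem sv_congr {R R' : Finset α → ℕ} {n : ℕ} {S : Finset α} {a b c : α}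
    (h : ∀ A ⊆ ({a, b, c} ∪ S : Finset α), R A = R' A) : sv R n S a b c = sv R' n S a b c := by
  have k : ∀ U ⊆ ({a, b, c} : Finset α), ∀ y, pol R n S U y = pol R' n S U y := by
    intro U hU y
    refine sum_congr rfl fun I hI => ?_
    unfold ind
    rw [h _ (union_subset_union hU (mem_powerset.1 hI))]
  funext y
  unfold sv
  rw [k ∅ (by simp), k {a} (by simp), k {b} (by simp), k {c} (by simp), k {a, b} (by grind)]

omit [Fintype α] [DecidableEq α] in
theorem rs_restrict (M : Matroid α) {R X : Set α} (h : X ⊆ R) : rs (M ↾ R) X = rs M X := by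
  unfold rs; rw [M.restrict_eRk_eq h]

theorem k4_facts {K : Matroid α} {φ : Fin 6 → α} (h : IsK4 (K ↾ Set.range φ) φ) :
    rs K (Set.range φ) = 3 ∧
      ∀ S : Finset (Fin 6), ind (rk K) 3 (S.image φ) = if B6 S then 1 else 0 := by
  have k : ∀ S : Finset (Fin 6), ((S.image φ).card = rs K (Set.range φ) ∧
      rk K (S.image φ) = rs K (Set.range φ)) ↔ B6 S := by
    intro S
    have e := rk_base (K ↾ Set.range φ) (S.image φ)
    unfold rk at e ⊢
    rw [Matroid.restrict_ground_eq, rs_restrict K subset_rfl,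
      rs_restrict K (by rw [coe_image]; exact Set.image_subset_range _ _)] at e
    rw [e, coe_image]
    exact h.2.2 S
  have h3 : rs K (Set.range φ) = 3 := by
    rw [← ((k {0, 1, 3}).2 (by decide)).1, card_image_of_injective _ h.1]; rfl
  refine ⟨h3, fun S => ?_⟩
  unfold ind
  have := k S
  rw [h3] at this
  simp only [this]

omit [DecidableEq α] in
theorem main (P K : Matroid α) (X Y T : Set α) (φ : Fin 6 → α) (hT : T = {φ 0, φ 1, φ 2})
    (hP : Glue P X Y T) (hK : Glue K X (Set.range φ) T) (hX : K ↾ X = P ↾ X)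
    (h4 : IsK4 (K ↾ Set.range φ) φ) (hY : Regular (P ↾ Y)) (hR : Rayleigh K) : Rayleigh P := by
  classical
  subst hT
  have hφ := h4.1
  obtain ⟨gP, eP⟩ := gd_of_glue hP
  obtain ⟨gK, eK⟩ := gd_of_glue hK
  obtain ⟨r3, b6⟩ := k4_facts h4
  have tX : ({φ 0, φ 1, φ 2} : Set α) ⊆ X := hP.2.1 ▸ Set.inter_subset_left
  have tY : ({φ 0, φ 1, φ 2} : Set α) ⊆ Y := hP.2.1 ▸ Set.inter_subset_right
  have ag : ∀ Z ⊆ X, rs K Z = rs P Z := fun Z hZ => by
    rw [← rs_restrict K hZ, hX, rs_restrict P hZ]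
  have ag' : ∀ A ⊆ ({φ 0, φ 1, φ 2} ∪ fs X (φ 0) (φ 1) (φ 2) : Finset α), rk K A = rk P A :=
    fun A hA => ag _ (by rw [← coe_fs tX]; exact_mod_cast hA)
  have tK := k4_tri (rk_RK K) hφ b6
  have tP : Tri (rk P) (φ 0) (φ 1) (φ 2) :=
    ⟨tK.ab, tK.ac, tK.bc, (ag' _ (by grind)).symm.trans tK.rab, (ag' _ (by grind)).symm.trans tK.rac,
      (ag' _ (by grind)).symm.trans tK.rbc, (ag' _ (by grind)).symm.trans tK.rT⟩
  have e6 : fs (Set.range φ) (φ 0) (φ 1) (φ 2) = ({3, 4, 5} : Finset (Fin 6)).image φ := by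
    ext g
    rw [mem_fs, mem_image]
    constructor
    · rintro ⟨⟨i, rfl⟩, k⟩
      refine ⟨i, ?_, rfl⟩
      simp only [Ne, hφ.eq_iff] at k
      revert i; decide
    · rintro ⟨i, hi, rfl⟩
      refine ⟨⟨i, rfl⟩, ?_⟩
      simp only [Ne, hφ.eq_iff]
      revert i; decide
  rw [e6] at gK eK
  rw [r3, ag X subset_rfl] at gK
  obtain ⟨n, A, hA, hI⟩ := hY
  obtain ⟨y1, y2, y3, y4⟩ := regular_side (rk_RK P) tP gP.aY gP.bY gP.cY gP.rY A hA (fun I hI' => by
    have : (I : Set α) ⊆ Y := by rw [← coe_fs tY]; exact_mod_cast hI'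
    rw [rk_indep, ← hI I this, Matroid.restrict_indep_iff, and_iff_left this])
  have fP : (fun z => W P z ∅) = FP (φ 0) (φ 1) (φ 2)
      (sv (rk P) (rs P X) (fs X (φ 0) (φ 1) (φ 2)) (φ 0) (φ 1) (φ 2))
      (sv (rk P) (rs P Y) (fs Y (φ 0) (φ 1) (φ 2)) (φ 0) (φ 1) (φ 2)) := by
    funext z
    rw [W_pol P eP, gP.glue (rk_RK P) tP y1]
    rfl
  have fK : (fun z => W K z ∅) = FK (φ 0) (φ 1) (φ 2) (φ 3) (φ 4) (φ 5)
      (sv (rk P) (rs P X) (fs X (φ 0) (φ 1) (φ 2)) (φ 0) (φ 1) (φ 2)) := by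
    funext z
    unfold FK
    rw [W_pol K eK, gK.glue (rk_RK K) tK (k4_modu b6), ← k4_sv hφ b6, ← sv_congr ag']
    rfl
  have nX : ∀ i ∈ ({3, 4, 5} : Finset (Fin 6)), φ i ∉ fs X (φ 0) (φ 1) (φ 2) :=
    fun i hi k => disjoint_left.1 gK.disj k (mem_image_of_mem φ hi)
  have mK : ∀ g, (g = φ 0 ∨ g = φ 1 ∨ g = φ 2 ∨ g = φ 3 ∨ g = φ 4 ∨ g = φ 5 ∨
      g ∈ fs X (φ 0) (φ 1) (φ 2)) → g ∈ K.E := by
    intro g hg
    rw [← eK]
    simp only [image_insert, image_singleton, coe_insert, coe_union, coe_singleton,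
      Set.mem_insert_iff, Set.mem_union, Set.mem_singleton_iff, mem_coe]
    tauto
  have C : Core (φ 0) (φ 1) (φ 2) (φ 3) (φ 4) (φ 5) (fs X (φ 0) (φ 1) (φ 2))
      (fs Y (φ 0) (φ 1) (φ 2)) (sv (rk P) (rs P X) (fs X (φ 0) (φ 1) (φ 2)) (φ 0) (φ 1) (φ 2))
      (sv (rk P) (rs P Y) (fs Y (φ 0) (φ 1) (φ 2)) (φ 0) (φ 1) (φ 2)) :=
    { ab := hφ.ne (by decide), ac := hφ.ne (by decide), ad := hφ.ne (by decide),
      ae := hφ.ne (by decide), af := hφ.ne (by decide), bc := hφ.ne (by decide),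
      bd := hφ.ne (by decide), be := hφ.ne (by decide), bf := hφ.ne (by decide),
      cd := hφ.ne (by decide), ce := hφ.ne (by decide), cf := hφ.ne (by decide),
      de := hφ.ne (by decide), df := hφ.ne (by decide), ef := hφ.ne (by decide),
      aX := gP.aX, bX := gP.bX, cX := gP.cX, dX := nX 3 (by decide), eX := nX 4 (by decide),
      fX := nX 5 (by decide), aY := gP.aY, bY := gP.bY, cY := gP.cY,
      disj := fun g hg => disjoint_left.1 gP.disj hg, xdep := sv_dep, ndep := sv_dep,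
      xpos := fun y hy => sv_pos (rk_RK P) tP gP.aX gP.bX gP.cX gP.rX hy,
      npos := fun y hy => sv_pos (rk_RK P) tP gP.aY gP.bY gP.cY gP.rY hy,
      quad := y2, aff := fun g hg y => sv_aff hg y, nev := y3, herm := y4,
      ppos := fun y hy => by
        rw [← fP]
        show 0 < W P y ∅
        rw [W_pol P eP]
        exact pol_pos (rk_RK P) (by have := (rk_RK P).le ∅; simpa using this) _
          (by rw [empty_union]; unfold rk; rw [eP]) hy
      rayK := fun g h hgh hg hh z hz => by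
        rw [← fK, ry_iff K hz hgh]
        exact hR z hz g (mK g hg) h (mK h hh) hgh }
  have mP : ∀ g ∈ P.E, g ∈ fs X (φ 0) (φ 1) (φ 2) ∨ g = φ 0 ∨ g = φ 1 ∨ g = φ 2 ∨
      g ∈ fs Y (φ 0) (φ 1) (φ 2) := by
    intro g hg
    rw [← eP] at hg
    simp only [coe_insert, coe_union, Set.mem_insert_iff, Set.mem_union, mem_coe] at hg
    tauto
  intro y hy g hg h hh hgh
  rw [← ry_iff P hy hgh, fP]
  exact C.ray hy hgh (mP g hg) (mP h hh)

end Pool.Agent.Lib.MP_c69b6d_co.G
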