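import Pool.Agent.Lib.MP_c69b6d_co.G.Core

/-! The three cases of the Rayleigh inequality in the gluing with the regular side. -/

namespace Pool.Agent.Lib.MP_c69b6d_co.G

variable {α : Type} [DecidableEq α]

noncomputable def mA (a : α) (nv : (α → ℝ) → V5) (y : α → ℝ) : ℝ := y a + (nv y).A / (nv y).t
noncomputable def mB (b : α) (nv : (α → ℝ) → V5) (y : α → ℝ) : ℝ := y b + (nv y).B / (nv y).t
noncomputable def mC (c : α) (nv : (α → ℝ) → V5) (y : α → ℝ) : ℝ := y c + (nv y).C / (nv y).t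

namespace Core

variable {a b c d e f : α} {X Y : Finset α} {xv nv : (α → ℝ) → V5}

theorem FP_eq (C : Core a b c d e f X Y xv nv) {y : α → ℝ} (hy : ∀ i, 0 < y i) :
    FP a b c xv nv y = (nv y).t * (xv y).ev (mA a nv y) (mB b nv y) (mC c nv y) :=
  V5.glu_eq _ (C.quad y hy) (C.npos y hy).1.ne' _ _ _

theorem m_pos (C : Core a b c d e f X Y xv nv) {y : α → ℝ} (hy : ∀ i, 0 < y i) :
    0 < mA a nv y ∧ 0 < mB b nv y ∧ 0 < mC c nv y := by
  obtain ⟨h1, h2, h3, h4⟩ := C.npos y hy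
  have := hy a; have := hy b; have := hy c
  unfold mA mB mC
  refine ⟨?_, ?_, ?_⟩ <;> positivity

theorem FP_up (C : Core a b c d e f X Y xv nv) {y : α → ℝ} (hy : ∀ i, 0 < y i) {g : α}
    (hg : g ∈ X) : FP a b c xv nv (up y g 1) =
      (nv y).t * (xv (up y g 1)).ev (mA a nv y) (mB b nv y) (mC c nv y) := by
  have k : ∀ i, i ∉ X → up y g 1 i = y i := fun i hi => up_ne y 1 fun h => hi (h ▸ hg)
  rw [C.FP_eq (up_pos hy g zero_le_one)]
  unfold mA mB mC
  rw [k a C.aX, k b C.bX, k c C.cX, C.nout y (C.disj g hg)]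

theorem pxx (C : Core a b c d e f X Y xv nv) {y : α → ℝ} (hy : ∀ i, 0 < y i) {g h : α}
    (hg : g ∈ X) (hh : h ∈ X) (hgh : g ≠ h) : Ry (FP a b c xv nv) g h y := by
  obtain ⟨p1, p2, p3⟩ := C.m_pos hy
  have r := C.kxx hy p1 p2 p3 hg hh hgh
  have k : ∀ i, i ∉ X → up y g 1 i = y i := fun i hi => up_ne y 1 fun h => hi (h ▸ hg)
  have e1 : mA a nv (up y g 1) = mA a nv y := by unfold mA; rw [k a C.aX, C.nout y (C.disj g hg)]
  have e2 : mB b nv (up y g 1) = mB b nv y := by unfold mB; rw [k b C.bX, C.nout y (C.disj g hg)]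
  have e3 : mC c nv (up y g 1) = mC c nv y := by unfold mC; rw [k c C.cX, C.nout y (C.disj g hg)]
  unfold Ry
  rw [C.FP_eq hy, C.FP_up hy hg, C.FP_up hy hh, C.FP_up (up_pos hy g zero_le_one) hh, e1, e2, e3,
    C.nout y (C.disj g hg)]
  have := mul_le_mul_of_nonneg_left r (mul_pos (C.npos y hy).1 (C.npos y hy).1).le
  linarith

theorem pointN (C : Core a b c d e f X Y xv nv) {y : α → ℝ} (hy : ∀ i, 0 < y i) {u v w : ℝ}
    (hu : 0 < u) (hv : 0 < v) (hw : 0 < w) :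
    ∃ z : α → ℝ, (∀ i, 0 < z i) ∧ (∀ g ∈ Y, z g = y g) ∧ z a = u ∧ z b = v ∧ z c = w := by
  refine ⟨fun g => if g = a then u else if g = b then v else if g = c then w else y g,
    fun i => ?_, ?_, ?_, ?_, ?_⟩
  · have := hy i
    dsimp only
    split_ifs <;> assumption
  · intro g hg
    have h1 : g ≠ a := fun h => C.aY (h ▸ hg)
    have h2 : g ≠ b := fun h => C.bY (h ▸ hg)
    have h3 : g ≠ c := fun h => C.cY (h ▸ hg)
    simp only [h1, h2, h3, if_false]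
  · simp only [if_true]
  · simp only [C.ab.symm, if_true, if_false]
  · simp only [C.ac.symm, C.bc.symm, if_true, if_false]

theorem rayN (C : Core a b c d e f X Y xv nv) {y : α → ℝ} (hy : ∀ i, 0 < y i) {h : α} (hh : h ∈ Y)
    {u v w : ℝ} (hu : 0 < u) (hv : 0 < v) (hw : 0 < w) :
    (nv y).ev u v w * (nv (up y h 1)).ev (u + 1) v w ≤
      (nv y).ev (u + 1) v w * (nv (up y h 1)).ev u v w ∧
    (nv y).ev u v w * (nv (up y h 1)).ev u (v + 1) w ≤
      (nv y).ev u (v + 1) w * (nv (up y h 1)).ev u v w := by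
  obtain ⟨z, hz, k, k1, k2, k3⟩ := C.pointN hy hu hv hw
  have h0 : Gt nv a b c 0 z ≠ 0 := by
    unfold Gt; rw [zero_mul, sub_zero]; exact (C.nev z hz).ne'
  have r1 := (C.herm 0 le_rfl a h (by simp) (by simp [hh]) z hz h0).symm
  have r2 := (C.herm 0 le_rfl b h (by simp) (by simp [hh]) z hz h0).symm
  have e0 : nv z = nv y := C.ndep _ _ k
  have e1 : nv (up z h 1) = nv (up y h 1) := C.ndep _ _ fun i hi => by unfold up; rw [k i hi]
  have ha : a ≠ h := fun k => C.aY (k ▸ hh)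
  have hb : b ≠ h := fun k => C.bY (k ▸ hh)
  have hc : c ≠ h := fun k => C.cY (k ▸ hh)
  unfold Ry Gt at r1 r2
  simp only [C.nout _ C.aY, C.nout _ C.bY, up_self, up_ne _ _ ha, up_ne _ _ hb, up_ne _ _ hc,
    up_ne _ _ C.ab, up_ne _ _ C.ab.symm, up_ne _ _ C.ac.symm, up_ne _ _ C.bc.symm, e0, e1, k1, k2,
    k3, zero_mul, sub_zero] at r1 r2
  constructor <;> linarith

theorem move (C : Core a b c d e f X Y xv nv) {y : α → ℝ} (hy : ∀ i, 0 < y i) {h : α}
    (hh : h = a ∨ h = b ∨ h = c ∨ h ∈ Y) : ∃ τa τb τc : ℝ,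
      mA a nv (up y h 1) = mA a nv y + τa ∧ mB b nv (up y h 1) = mB b nv y + τb ∧
      mC c nv (up y h 1) = mC c nv y + τc ∧ τa * τb + τa * τc + τb * τc = 0 ∧ 0 ≤ τb + τc ∧
      0 ≤ τa + τc ∧ 0 ≤ τa + τb := by
  unfold mA mB mC
  rcases hh with rfl | rfl | rfl | hh
  · refine ⟨1, 0, 0, ?_⟩
    rw [C.nout _ C.aY, up_self, up_ne _ _ C.ab.symm, up_ne _ _ C.ac.symm]
    refine ⟨by ring, by ring, by ring, ?_⟩; norm_num
  · refine ⟨0, 1, 0, ?_⟩
    rw [C.nout _ C.bY, up_self, up_ne _ _ C.ab, up_ne _ _ C.bc.symm]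
    refine ⟨by ring, by ring, by ring, ?_⟩; norm_num
  · refine ⟨0, 0, 1, ?_⟩
    rw [C.nout _ C.cY, up_self, up_ne _ _ C.ac, up_ne _ _ C.bc]
    refine ⟨by ring, by ring, by ring, ?_⟩; norm_num
  obtain ⟨m, hm⟩ := C.aff h hh y
  have ha : a ≠ h := fun k => C.aY (k ▸ hh)
  have hb : b ≠ h := fun k => C.bY (k ▸ hh)
  have hc : c ≠ h := fun k => C.cY (k ▸ hh)
  have q1 := C.quad _ (up_pos hy h zero_le_one)
  have q2 := C.quad _ (up_pos hy h zero_le_two)
  have t0 := (C.npos y hy).1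
  have t1 := (C.npos _ (up_pos hy h zero_le_one)).1
  have R := fun u v w hu hv hw => C.rayN hy hh (u := u) (v := v) (w := w) hu hv hw
  rw [hm] at q1 q2 t1 R
  have iso := iso_mv (C.quad y hy) q1 q2
  rw [hm, up_ne _ _ ha, up_ne _ _ hb, up_ne _ _ hc]
  generalize nv y = n at *
  have sa : 0 ≤ n.t * m.a - m.t * n.a := sign_aux (o := n.o) (b := n.b) (c := n.c) (o' := m.o)
    (b' := m.b) (c' := m.c) fun u hu => (R u 1 1 hu one_pos one_pos).2
  have sb : 0 ≤ n.t * m.b - m.t * n.b := sign_aux (o := n.o) (b := n.a) (c := n.c) (o' := m.o)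
    (b' := m.a) (c' := m.c) fun u hu => by
      have := (R 1 u 1 one_pos hu one_pos).1
      unfold V5.ev V5.mv tf at this
      unfold tf
      linarith
  have sc : 0 ≤ n.t * m.c - m.t * n.c := sign_aux (o := n.o) (b := n.a) (c := n.b) (o' := m.o)
    (b' := m.a) (c' := m.b) fun u hu => by
      have := (R 1 1 u one_pos one_pos hu).1
      unfold V5.ev V5.mv tf at this
      unfold tf
      linarith
  have t2 : 0 < n.t + m.t := by unfold V5.mv at t1; simpa using t1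
  have hκ : 0 < 1 / (n.t * (n.t + m.t)) := by positivity
  refine ⟨1 / (n.t * (n.t + m.t)) * (n.t * m.A - m.t * n.A),
    1 / (n.t * (n.t + m.t)) * (n.t * m.B - m.t * n.B),
    1 / (n.t * (n.t + m.t)) * (n.t * m.C - m.t * n.C), ?_, ?_, ?_, ?_, ?_, ?_, ?_⟩
  · unfold V5.A V5.mv; simp only [one_mul]; field_simp; ring
  · unfold V5.B V5.mv; simp only [one_mul]; field_simp; ring
  · unfold V5.C V5.mv; simp only [one_mul]; field_simp; ring
  · linear_combination (1 / (n.t * (n.t + m.t))) ^ 2 * iso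
  · have := mul_nonneg hκ.le sa
    unfold V5.B V5.C; linarith
  · have := mul_nonneg hκ.le sb
    unfold V5.A V5.C; linarith
  · have := mul_nonneg hκ.le sc
    unfold V5.A V5.B; linarith

theorem notX (C : Core a b c d e f X Y xv nv) {h : α} (hh : h = a ∨ h = b ∨ h = c ∨ h ∈ Y) :
    h ∉ X := by
  rcases hh with rfl | rfl | rfl | hh
  exacts [C.aX, C.bX, C.cX, fun k => C.disj h k hh]

theorem pxy (C : Core a b c d e f X Y xv nv) {y : α → ℝ} (hy : ∀ i, 0 < y i) {g h : α}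
    (hg : g ∈ X) (hh : h = a ∨ h = b ∨ h = c ∨ h ∈ Y) : Ry (FP a b c xv nv) g h y := by
  obtain ⟨p1, p2, p3⟩ := C.m_pos hy
  obtain ⟨τa, τb, τc, e1, e2, e3, iso, s1, s2, s3⟩ := C.move hy hh
  have r := C.kdir hy p1 p2 p3 hg iso s1 s2 s3
  have hy' := up_pos hy h zero_le_one
  unfold Ry
  rw [up_comm y g h, C.FP_eq hy, C.FP_up hy hg, C.FP_eq hy', C.FP_up hy' hg, up_comm y h g,
    C.xout _ (C.notX hh), C.xout _ (C.notX hh), e1, e2, e3]
  have := mul_le_mul_of_nonneg_left r (mul_pos (C.npos y hy).1 (C.npos _ hy').1).le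
  linarith

theorem pyy (C : Core a b c d e f X Y xv nv) {y : α → ℝ} (hy : ∀ i, 0 < y i) {g h : α}
    (hg : g = a ∨ g = b ∨ g = c ∨ g ∈ Y) (hh : h = a ∨ h = b ∨ h = c ∨ h ∈ Y) :
    Ry (FP a b c xv nv) g h y := by
  obtain ⟨p1, p2, p3, p4⟩ := C.xpos y hy
  have hQ := C.kq hy
  have key : ∀ z : α → ℝ, xv z = xv y → FP a b c xv nv z = (xv y).t *
      Gt nv a b c ((xv y).Q / (xv y).t ^ 2) (up (up (up z a ((xv y).A / (xv y).t)) b
        ((xv y).B / (xv y).t)) c ((xv y).C / (xv y).t)) := by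
    intro z hz
    unfold FP Gt
    rw [hz, V5.glu_eq' _ p1.ne', C.nout _ C.cY, C.nout _ C.bY, C.nout _ C.aY, up_ne _ _ C.ac,
      up_ne _ _ C.ab, up_self, up_ne _ _ C.bc, up_self, up_ne _ _ C.ab.symm, up_self,
      up_ne _ _ C.bc.symm, up_ne _ _ C.ac.symm]
  have com : ∀ (z : α → ℝ) (i : α) (s t r : ℝ), up (up (up (up z i 1) a s) b t) c r =
      up (up (up (up z a s) b t) c r) i 1 := by
    intro z i s t r; funext j; unfold up; ring
  have hp := C.ppos y hy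
  rw [key y rfl] at hp
  have r := C.herm ((xv y).Q / (xv y).t ^ 2) (by positivity) g h hg hh _
    (up_pos (up_pos (up_pos hy a (div_nonneg p2 p1.le)) b (div_nonneg p3 p1.le)) c
      (div_nonneg p4 p1.le)) (right_ne_zero_of_mul hp.ne')
  unfold Ry at r ⊢
  rw [key y rfl, key _ (C.xout y (C.notX hg) 1), key _ (C.xout y (C.notX hh) 1),
    key _ ((C.xout _ (C.notX hh) 1).trans (C.xout y (C.notX hg) 1)), com, com, com]
  have := mul_le_mul_of_nonneg_left r (mul_pos p1 p1).le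
  linarith

theorem ray (C : Core a b c d e f X Y xv nv) {y : α → ℝ} (hy : ∀ i, 0 < y i) {g h : α}
    (hgh : g ≠ h) (hg : g ∈ X ∨ g = a ∨ g = b ∨ g = c ∨ g ∈ Y)
    (hh : h ∈ X ∨ h = a ∨ h = b ∨ h = c ∨ h ∈ Y) : Ry (FP a b c xv nv) g h y := by
  rcases hg with hg | hg <;> rcases hh with hh | hh
  exacts [C.pxx hy hg hh hgh, C.pxy hy hg hh, (C.pxy hy hh hg).symm, C.pyy hy hg hh]

end Core

end Pool.Agent.Lib.MP_c69b6d_co.G
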