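import Mathlib

/-! Rank functions, the five polynomials of a triangle and the gluing formula. -/

namespace Pool.Agent.Lib.MP_c69b6d_co.G

open Finset

variable {α : Type} [DecidableEq α]

/-- the properties of a rank function which are used. -/
structure RK (R : Finset α → ℕ) : Prop where
  le : ∀ A, R A ≤ A.card
  sub : ∀ A B C D : Finset α, C ⊆ A ∪ B → D ⊆ A → D ⊆ B → R C + R D ≤ R A + R B

theorem RK.mono {R : Finset α → ℕ} (h : RK R) {A B : Finset α} (hAB : A ⊆ B) : R A ≤ R B := by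
  have := h.sub B A A A subset_union_right hAB (Subset.refl _)
  omega

/-- a triangle. -/
structure Tri (R : Finset α → ℕ) (a b c : α) : Prop where
  ab : a ≠ b
  ac : a ≠ c
  bc : b ≠ c
  rab : R {a, b} = 2
  rac : R {a, c} = 2
  rbc : R {b, c} = 2
  rT : R {a, b, c} = 2

/-- the indicator of: `A` has `n` elements and rank `n`. -/
def ind (R : Finset α → ℕ) (n : ℕ) (A : Finset α) : ℝ := if A.card = n ∧ R A = n then 1 else 0

/-- the generating polynomial of the subsets `I` of `S` such that `U ∪ I` has size and rank `n`. -/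
def pol (R : Finset α → ℕ) (n : ℕ) (S U : Finset α) (y : α → ℝ) : ℝ :=
  ∑ I ∈ S.powerset, ind R n (U ∪ I) * ∏ i ∈ I, y i

/-- the shape of a generating polynomial in the three variables of a triangle. -/
def tf (h0 wa wb wc h2 u v w : ℝ) : ℝ :=
  h0 + wa * u + wb * v + wc * w + h2 * (u * v + u * w + v * w)

omit [DecidableEq α] in
theorem ind_nonneg (R : Finset α → ℕ) (n : ℕ) (A : Finset α) : 0 ≤ ind R n A := by
  unfold ind; split_ifs <;> norm_num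

theorem pol_nonneg (R : Finset α → ℕ) (n : ℕ) (S U : Finset α) {y : α → ℝ} (hy : ∀ i, 0 ≤ y i) :
    0 ≤ pol R n S U y :=
  sum_nonneg fun _ _ => mul_nonneg (ind_nonneg _ _ _) (prod_nonneg fun i _ => hy i)

theorem pol_congr (R : Finset α → ℕ) (n : ℕ) (S U : Finset α) {y z : α → ℝ}
    (h : ∀ i ∈ S, y i = z i) : pol R n S U y = pol R n S U z :=
  sum_congr rfl fun I hI => by
    rw [prod_congr rfl fun i hi => h i (mem_powerset.1 hI hi)]

theorem pol_insert (R : Finset α → ℕ) (n : ℕ) {S : Finset α} (U : Finset α) {e : α} (he : e ∉ S)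
    (y : α → ℝ) : pol R n (insert e S) U y = pol R n S U y + y e * pol R n S (insert e U) y := by
  unfold pol
  rw [sum_powerset_insert he, mul_sum]
  congr 1
  refine sum_congr rfl fun I hI => ?_
  have : e ∉ I := fun h => he (mem_powerset.1 hI h)
  rw [prod_insert this, union_insert, insert_union]
  ring

theorem sum_powerset_union {X Y : Finset α} (h : Disjoint X Y) (f : Finset α → ℝ) :
    ∑ B ∈ (X ∪ Y).powerset, f B = ∑ I ∈ X.powerset, ∑ J ∈ Y.powerset, f (I ∪ J) := by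
  induction X using Finset.induction_on generalizing f with
  | empty => simp
  | insert e X he ih =>
    rw [disjoint_insert_left] at h
    have h1 : e ∉ X ∪ Y := by simp [he, h.1]
    rw [insert_union, sum_powerset_insert h1, sum_powerset_insert he, ih h.2, ih h.2]
    simp only [insert_union]

section
variable {R : Finset α → ℕ} {a b c : α}

theorem Tri.pair (h : RK R) (t : Tri R a b c) (A : Finset α) :
    R ({a, b} ∪ A) = R ({a, b, c} ∪ A) ∧ R ({a, c} ∪ A) = R ({a, b, c} ∪ A) ∧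
      R ({b, c} ∪ A) = R ({a, b, c} ∪ A) := by
  have k1 := h.sub ({a, b} ∪ A) {a, b, c} ({a, b, c} ∪ A) {a, b} (by grind)
    (by grind) (by grind)
  have k2 := h.sub ({a, c} ∪ A) {a, b, c} ({a, b, c} ∪ A) {a, c} (by grind)
    (by grind) (by grind)
  have k3 := h.sub ({b, c} ∪ A) {a, b, c} ({a, b, c} ∪ A) {b, c} (by grind)
    (by grind) (by grind)
  have m1 : R ({a, b} ∪ A) ≤ R ({a, b, c} ∪ A) := h.mono (by grind)
  have m2 : R ({a, c} ∪ A) ≤ R ({a, b, c} ∪ A) := h.mono (by grind)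
  have m3 : R ({b, c} ∪ A) ≤ R ({a, b, c} ∪ A) := h.mono (by grind)
  have := t.rab; have := t.rac; have := t.rbc; have := t.rT
  omega

theorem Tri.single (h : RK R) (t : Tri R a b c) : R {a} = 1 ∧ R {b} = 1 ∧ R {c} = 1 := by
  have k1 := h.sub {a} {b} {a, b} ∅ (by grind) (by simp) (by simp)
  have k2 := h.sub {a} {c} {a, c} ∅ (by grind) (by simp) (by simp)
  have l1 := h.le {a}
  have l2 := h.le {b}
  have l3 := h.le {c}
  rw [card_singleton] at l1 l2 l3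
  have := t.rab; have := t.rac
  omega

theorem card_pair_union {a b : α} (hab : a ≠ b) {A : Finset α} (ha : a ∉ A) (hb : b ∉ A) :
    (({a, b} : Finset α) ∪ A).card = A.card + 2 := by
  rw [insert_union, singleton_union, card_insert_of_notMem (by simp [hab, ha]),
    card_insert_of_notMem hb]

theorem card_one_union {a : α} {A : Finset α} (ha : a ∉ A) :
    (({a} : Finset α) ∪ A).card = A.card + 1 := by
  rw [singleton_union, card_insert_of_notMem ha]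

/-- the expansion in the variables of a triangle. -/
theorem pol_three (h : RK R) (t : Tri R a b c) (n : ℕ) {S : Finset α} (ha : a ∉ S) (hb : b ∉ S)
    (hc : c ∉ S) (y : α → ℝ) :
    pol R n (insert a (insert b (insert c S))) ∅ y =
      tf (pol R n S ∅ y) (pol R n S {a} y) (pol R n S {b} y) (pol R n S {c} y) (pol R n S {a, b} y)
        (y a) (y b) (y c) := by
  have h1 : a ∉ insert b (insert c S) := by simp [t.ab, t.ac, ha]
  have h2 : b ∉ insert c S := by simp [t.bc, hb]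
  have e1 : pol R n S (insert c (insert a ∅)) y = pol R n S {a, b} y := by
    refine sum_congr rfl fun I hI => ?_
    have hI' := mem_powerset.1 hI
    have e : insert c (insert a (∅ : Finset α)) = {a, c} := by ext x; simp; tauto
    unfold ind
    rw [e, card_pair_union t.ac (fun k => ha (hI' k)) (fun k => hc (hI' k)),
      card_pair_union t.ab (fun k => ha (hI' k)) (fun k => hb (hI' k)), (t.pair h I).1,
      (t.pair h I).2.1]
  have e2 : pol R n S (insert c (insert b ∅)) y = pol R n S {a, b} y := by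
    refine sum_congr rfl fun I hI => ?_
    have hI' := mem_powerset.1 hI
    have e : insert c (insert b (∅ : Finset α)) = {b, c} := by ext x; simp; tauto
    unfold ind
    rw [e, card_pair_union t.bc (fun k => hb (hI' k)) (fun k => hc (hI' k)),
      card_pair_union t.ab (fun k => ha (hI' k)) (fun k => hb (hI' k)), (t.pair h I).1,
      (t.pair h I).2.2]
  have e3 : pol R n S (insert b (insert a ∅)) y = pol R n S {a, b} y := by
    congr 1; ext x; simp; tauto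
  have e4 : pol R n S (insert c (insert b (insert a ∅))) y = 0 := by
    refine sum_eq_zero fun I hI => ?_
    have hI' := mem_powerset.1 hI
    have e : insert c (insert b (insert a (∅ : Finset α))) = {a, b, c} := by ext x; simp; tauto
    have k := h.le ({a, b} ∪ I)
    rw [card_pair_union t.ab (fun k => ha (hI' k)) (fun k => hb (hI' k)), (t.pair h I).1] at k
    have k2 : (({a, b, c} : Finset α) ∪ I).card = I.card + 3 := by
      rw [insert_union, card_insert_of_notMem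
        (by have := t.ab; have := t.ac; grind),
        card_pair_union t.bc (fun k => hb (hI' k)) (fun k => hc (hI' k))]
    unfold ind
    rw [e, if_neg (by omega), zero_mul]
  rw [pol_insert R n _ h1, pol_insert R n _ h2, pol_insert R n _ h2, pol_insert R n _ hc,
    pol_insert R n _ hc, pol_insert R n _ hc, pol_insert R n _ hc, e1, e2, e3, e4]
  simp only [insert_empty_eq]
  unfold tf
  ring

/-- the data of a gluing along the triangle `a, b, c`. -/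
structure Gd (R : Finset α → ℕ) (a b c : α) (X Y : Finset α) (p q r : ℕ) : Prop where
  disj : Disjoint X Y
  aX : a ∉ X
  bX : b ∉ X
  cX : c ∉ X
  aY : a ∉ Y
  bY : b ∉ Y
  cY : c ∉ Y
  rX : R ({a, b, c} ∪ X) = p
  rY : R ({a, b, c} ∪ Y) = q
  rE : R ({a, b, c} ∪ (X ∪ Y)) = r
  add : p + q = r + 2

variable {X Y : Finset α} {p q r : ℕ}

/-- the inequalities used for one subset `U` of the triangle. -/
theorem Gd.facts (h : RK R) (t : Tri R a b c) (g : Gd R a b c X Y p q r) {I J U : Finset α}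
    (hI : I ⊆ X) (hJ : J ⊆ Y) (hU : U ⊆ {a, b, c}) :
    R (U ∪ (I ∪ J)) + 2 ≤ R ({a, b} ∪ I) + q ∧ R (U ∪ (I ∪ J)) + 2 ≤ R ({a, b} ∪ J) + p ∧
    R (U ∪ (I ∪ J)) ≤ r ∧ R (U ∪ I) ≤ R ({a, b} ∪ I) ∧ R (U ∪ J) ≤ R ({a, b} ∪ J) ∧
    R ({a, b} ∪ I) ≤ p ∧ R ({a, b} ∪ J) ≤ q ∧
    r + R (U ∪ I) + R ({a, b} ∪ J) ≤ R (U ∪ (I ∪ J)) + p + q ∧
    r + R ({a, b} ∪ I) + R (U ∪ J) ≤ R (U ∪ (I ∪ J)) + p + q ∧
    R (U ∪ (I ∪ J)) + R U ≤ R (U ∪ I) + R (U ∪ J) ∧
    R (U ∪ (I ∪ J)) + R (∅ ∪ J) ≤ R (∅ ∪ (I ∪ J)) + R (U ∪ J) ∧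
    R (∅ ∪ (I ∪ J)) ≤ R (U ∪ (I ∪ J)) ∧ R (∅ ∪ J) ≤ R (U ∪ J) := by
  rw [(t.pair h I).1, (t.pair h J).1]
  have k1 := h.sub ({a, b, c} ∪ I) ({a, b, c} ∪ Y) (U ∪ (I ∪ J)) {a, b, c} (by grind) (by grind)
    (by grind)
  have k2 := h.sub ({a, b, c} ∪ J) ({a, b, c} ∪ X) (U ∪ (I ∪ J)) {a, b, c} (by grind) (by grind)
    (by grind)
  have k3 : R (U ∪ (I ∪ J)) ≤ R ({a, b, c} ∪ (X ∪ Y)) := h.mono (by grind)
  have k4 : R (U ∪ I) ≤ R ({a, b, c} ∪ I) := h.mono (by grind)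
  have k5 : R (U ∪ J) ≤ R ({a, b, c} ∪ J) := h.mono (by grind)
  have k6 : R ({a, b, c} ∪ I) ≤ R ({a, b, c} ∪ X) := h.mono (by grind)
  have k7 : R ({a, b, c} ∪ J) ≤ R ({a, b, c} ∪ Y) := h.mono (by grind)
  have k8 := h.sub ({a, b, c} ∪ (X ∪ J)) ({a, b, c} ∪ Y) ({a, b, c} ∪ (X ∪ Y)) ({a, b, c} ∪ J)
    (by grind) (by grind) (by grind)
  have k9 := h.sub (U ∪ (I ∪ J)) ({a, b, c} ∪ X) ({a, b, c} ∪ (X ∪ J)) (U ∪ I)
    (by grind) (by grind) (by grind)
  have k10 := h.sub ({a, b, c} ∪ (I ∪ Y)) ({a, b, c} ∪ X) ({a, b, c} ∪ (X ∪ Y)) ({a, b, c} ∪ I)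
    (by grind) (by grind) (by grind)
  have k11 := h.sub (U ∪ (I ∪ J)) ({a, b, c} ∪ Y) ({a, b, c} ∪ (I ∪ Y)) (U ∪ J)
    (by grind) (by grind) (by grind)
  have k12 := h.sub (U ∪ I) (U ∪ J) (U ∪ (I ∪ J)) U (by grind) (by grind) (by grind)
  have k13 := h.sub (∅ ∪ (I ∪ J)) (U ∪ J) (U ∪ (I ∪ J)) (∅ ∪ J) (by grind) (by grind) (by grind)
  have k14 : R (∅ ∪ (I ∪ J)) ≤ R (U ∪ (I ∪ J)) := h.mono (by grind)
  have k15 : R (∅ ∪ J) ≤ R (U ∪ J) := h.mono (by grind)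
  have := t.rT; have := g.rX; have := g.rY; have := g.rE
  omega

theorem Gd.cards (t : Tri R a b c) (g : Gd R a b c X Y p q r) {I J : Finset α}
    (hI : I ⊆ X) (hJ : J ⊆ Y) :
    (∅ ∪ I).card = I.card ∧ ({a} ∪ I).card = I.card + 1 ∧ ({b} ∪ I).card = I.card + 1 ∧
    ({c} ∪ I).card = I.card + 1 ∧ ({a, b} ∪ I).card = I.card + 2 ∧
    (∅ ∪ J).card = J.card ∧ ({a} ∪ J).card = J.card + 1 ∧ ({b} ∪ J).card = J.card + 1 ∧
    ({c} ∪ J).card = J.card + 1 ∧ ({a, b} ∪ J).card = J.card + 2 ∧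
    (∅ ∪ (I ∪ J)).card = I.card + J.card ∧ ({a} ∪ (I ∪ J)).card = I.card + J.card + 1 ∧
    ({b} ∪ (I ∪ J)).card = I.card + J.card + 1 ∧ ({c} ∪ (I ∪ J)).card = I.card + J.card + 1 ∧
    ({a, b} ∪ (I ∪ J)).card = I.card + J.card + 2 := by
  have d : (I ∪ J).card = I.card + J.card := card_union_of_disjoint (g.disj.mono hI hJ)
  have a1 : a ∉ I := fun k => g.aX (hI k)
  have b1 : b ∉ I := fun k => g.bX (hI k)
  have c1 : c ∉ I := fun k => g.cX (hI k)
  have a2 : a ∉ J := fun k => g.aY (hJ k)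
  have b2 : b ∉ J := fun k => g.bY (hJ k)
  have c2 : c ∉ J := fun k => g.cY (hJ k)
  have a3 : a ∉ I ∪ J := by simp [a1, a2]
  have b3 : b ∉ I ∪ J := by simp [b1, b2]
  have c3 : c ∉ I ∪ J := by simp [c1, c2]
  rw [empty_union, empty_union, empty_union, card_one_union a1, card_one_union b1,
    card_one_union c1, card_one_union a2, card_one_union b2, card_one_union c2, card_one_union a3,
    card_one_union b3, card_one_union c3, card_pair_union t.ab a1 b1, card_pair_union t.ab a2 b2,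
    card_pair_union t.ab a3 b3, d]
  simp

theorem Gd.ind2 (h : RK R) (t : Tri R a b c) (g : Gd R a b c X Y p q r) {I J : Finset α}
    (hI : I ⊆ X) (hJ : J ⊆ Y) :
    ind R r ({a, b} ∪ (I ∪ J)) = ind R p ({a, b} ∪ I) * ind R q ({a, b} ∪ J) := by
  have f := g.facts h t hI hJ (U := {a, b}) (by grind)
  have c := g.cards t hI hJ
  have l1 := h.le ({a, b} ∪ I)
  have l2 := h.le ({a, b} ∪ J)
  have := g.add
  unfold ind
  split_ifs <;> first | (norm_num; done) | (exfalso; omega)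

theorem ind1_aux {i j p q r x y1 y2 z1 z2 : ℕ} (add : p + q = r + 2) (l1 : y2 ≤ i + 2)
    (l2 : z2 ≤ j + 2) (l3 : y1 ≤ i + 1) (l4 : z1 ≤ j + 1) (f1 : x + 2 ≤ y2 + q)
    (f2 : x + 2 ≤ z2 + p) (f4 : y1 ≤ y2) (f5 : z1 ≤ z2) (f6 : y2 ≤ p) (f7 : z2 ≤ q)
    (f3 : x ≤ r) (f8 : r + y1 + z2 ≤ x + p + q) (f9 : r + y2 + z1 ≤ x + p + q)
    (f10 : x + 1 ≤ y1 + z1) :
    (if i + j + 1 = r ∧ x = r then (1 : ℝ) else 0) =
      (if i + 1 = p ∧ y1 = p then 1 else 0) * (if j + 2 = q ∧ z2 = q then 1 else 0) +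
      (if i + 2 = p ∧ y2 = p then 1 else 0) * (if j + 1 = q ∧ z1 = q then 1 else 0) := by
  split_ifs <;> first | (norm_num; done) | (exfalso; omega)

theorem Gd.ind1 (h : RK R) (t : Tri R a b c) (g : Gd R a b c X Y p q r) {I J : Finset α}
    (hI : I ⊆ X) (hJ : J ⊆ Y) {e : α} (he : e = a ∨ e = b ∨ e = c) :
    ind R r ({e} ∪ (I ∪ J)) = ind R p ({e} ∪ I) * ind R q ({a, b} ∪ J) +
      ind R p ({a, b} ∪ I) * ind R q ({e} ∪ J) := by
  obtain ⟨f1, f2, f3, f4, f5, f6, f7, f8, f9, f10, -⟩ := g.facts h t hI hJ (U := {e}) (by grind)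
  obtain ⟨-, c2, c3, c4, c5, -, c7, c8, c9, c10, -, c12, c13, c14, -⟩ := g.cards t hI hJ
  have l1 := h.le ({a, b} ∪ I)
  have l2 := h.le ({a, b} ∪ J)
  have l3 := h.le ({e} ∪ I)
  have l4 := h.le ({e} ∪ J)
  obtain ⟨s1, s2, s3⟩ := t.single h
  have k : ({e} ∪ I).card = I.card + 1 ∧ ({e} ∪ J).card = J.card + 1 ∧
      ({e} ∪ (I ∪ J)).card = I.card + J.card + 1 ∧ R {e} = 1 := by
    rcases he with rfl | rfl | rfl
    exacts [⟨c2, c7, c12, s1⟩, ⟨c3, c8, c13, s2⟩, ⟨c4, c9, c14, s3⟩]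
  obtain ⟨k1, k2, k3, k4⟩ := k
  unfold ind
  rw [k1] at l3
  rw [k2] at l4
  rw [c5] at l1
  rw [c10] at l2
  rw [k4] at f10
  rw [k1, k2, k3, c5, c10]
  exact ind1_aux g.add l1 l2 l3 l4 f1 f2 f4 f5 f6 f7 f3 f8 f9 f10

theorem iff_aux {p q r x yc y2 z0 za zc z2 xc : ℕ} (add : p + q = r + 2) (f3 : x ≤ r)
    (f6 : y2 ≤ p) (f7 : z2 ≤ q) (a5 : za ≤ z2) (k4 : za ≤ 1 + z0) (d3 : xc ≤ r) (d4 : yc ≤ y2)
    (d5 : zc ≤ z2) (d8 : r + yc + z2 ≤ xc + p + q) (d10 : xc + 1 ≤ yc + zc)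
    (d11 : xc + z0 ≤ x + zc) (d12 : x ≤ xc) (na : za = q) (nc : ¬ zc = q) : x = r ↔ yc = p := by
  omega

theorem ex_aux {q z0 za zb zc z2 : ℕ} (f7 : z2 ≤ q) (a5 : za ≤ z2) (k4 : za ≤ 1 + z0)
    (b5 : zb ≤ z2) (d5 : zc ≤ z2) (k3 : z2 + z0 ≤ zb + zc) (na : za = q) (nb : ¬ zb = q)
    (nc : ¬ zc = q) : False := by
  omega

theorem ne_aux {i p q r x y0 z0 za zb z2 : ℕ} (add : p + q = r + 2) (hD : i + 1 = p) (l3 : y0 ≤ i)
    (f2 : x + 2 ≤ z2 + p) (f7 : z2 ≤ q) (f10 : x ≤ y0 + z0) (a5 : za ≤ z2) (b5 : zb ≤ z2)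
    (k1 : z2 + z0 ≤ za + zb) (na : ¬ za = q) (nb : ¬ zb = q) : ¬ x = r := by
  omega

theorem out_aux {i j p q r x y0 y2 z0 z2 : ℕ} (add : p + q = r + 2)
    (l1 : y2 ≤ i + 2) (l2 : z2 ≤ j + 2) (l3 : y0 ≤ i) (l4 : z0 ≤ j)
    (f1 : x + 2 ≤ y2 + q) (f2 : x + 2 ≤ z2 + p) (f3 : x ≤ r) (f4 : y0 ≤ y2) (f5 : z0 ≤ z2)
    (f6 : y2 ≤ p) (f7 : z2 ≤ q) (f8 : r + y0 + z2 ≤ x + p + q) (f9 : r + y2 + z0 ≤ x + p + q)
    (f10 : x ≤ y0 + z0) (hC : ¬ j + 1 = q) :
    (if i + j = r ∧ x = r then (1 : ℝ) else 0) =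
      (if i = p ∧ y0 = p then 1 else 0) * (if j + 2 = q ∧ z2 = q then 1 else 0) +
      (if i + 2 = p ∧ y2 = p then 1 else 0) * (if j = q ∧ z0 = q then 1 else 0) := by
  split_ifs <;> first | (norm_num; done) | (exfalso; omega)

theorem ind0_aux {i j p q r x y0 ya yb yc y2 z0 za zb zc z2 xa xb xc : ℕ} (add : p + q = r + 2)
    (l1 : y2 ≤ i + 2) (l2 : z2 ≤ j + 2) (l3 : y0 ≤ i) (l4 : z0 ≤ j)
    (f1 : x + 2 ≤ y2 + q) (f2 : x + 2 ≤ z2 + p) (f3 : x ≤ r) (f4 : y0 ≤ y2) (f5 : z0 ≤ z2)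
    (f6 : y2 ≤ p) (f7 : z2 ≤ q) (f8 : r + y0 + z2 ≤ x + p + q) (f9 : r + y2 + z0 ≤ x + p + q)
    (f10 : x ≤ y0 + z0)
    (a3 : xa ≤ r) (a4 : ya ≤ y2) (a5 : za ≤ z2) (a8 : r + ya + z2 ≤ xa + p + q)
    (a10 : xa + 1 ≤ ya + za) (a11 : xa + z0 ≤ x + za) (a12 : x ≤ xa)
    (b3 : xb ≤ r) (b4 : yb ≤ y2) (b5 : zb ≤ z2) (b8 : r + yb + z2 ≤ xb + p + q)
    (b10 : xb + 1 ≤ yb + zb) (b11 : xb + z0 ≤ x + zb) (b12 : x ≤ xb)
    (d3 : xc ≤ r) (d4 : yc ≤ y2) (d5 : zc ≤ z2) (d8 : r + yc + z2 ≤ xc + p + q)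
    (d10 : xc + 1 ≤ yc + zc) (d11 : xc + z0 ≤ x + zc) (d12 : x ≤ xc)
    (k1 : z2 + z0 ≤ za + zb) (k2 : z2 + z0 ≤ za + zc) (k3 : z2 + z0 ≤ zb + zc)
    (k4 : za ≤ 1 + z0) (k5 : zb ≤ 1 + z0) (k6 : zc ≤ 1 + z0)
    (hm : (if j + 1 = q ∧ za = q then (1 : ℝ) else 0) * (if j + 1 = q ∧ zb = q then 1 else 0) *
      (if j + 1 = q ∧ zc = q then 1 else 0) = 0) :
    (if i + j = r ∧ x = r then (1 : ℝ) else 0) =
      (if i = p ∧ y0 = p then 1 else 0) * (if j + 2 = q ∧ z2 = q then 1 else 0) +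
      (if i + 2 = p ∧ y2 = p then 1 else 0) * (if j = q ∧ z0 = q then 1 else 0) +
      (if i + 1 = p ∧ ya = p then 1 else 0) * (((if j + 1 = q ∧ zb = q then 1 else 0) +
        (if j + 1 = q ∧ zc = q then 1 else 0) - (if j + 1 = q ∧ za = q then 1 else 0)) / 2) +
      (if i + 1 = p ∧ yb = p then 1 else 0) * (((if j + 1 = q ∧ za = q then 1 else 0) +
        (if j + 1 = q ∧ zc = q then 1 else 0) - (if j + 1 = q ∧ zb = q then 1 else 0)) / 2) +
      (if i + 1 = p ∧ yc = p then 1 else 0) * (((if j + 1 = q ∧ za = q then 1 else 0) +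
        (if j + 1 = q ∧ zb = q then 1 else 0) - (if j + 1 = q ∧ zc = q then 1 else 0)) / 2) := by
  by_cases hC : j + 1 = q
  swap
  · simp only [hC, false_and, if_false]
    rw [out_aux add l1 l2 l3 l4 f1 f2 f3 f4 f5 f6 f7 f8 f9 f10 hC]
    ring
  have e1 : ¬ (j + 2 = q ∧ z2 = q) := fun k => by have := k.1; clear * - this hC; omega
  have e2 : ¬ (j = q ∧ z0 = q) := fun k => by have := k.1; clear * - this hC; omega
  rw [if_neg e1, if_neg e2]
  by_cases hD : i + 1 = p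
  swap
  · simp only [hD, false_and, if_false]
    have e3 : ¬ (i + j = r ∧ x = r) := fun k => by have := k.1; clear * - this hC hD add; omega
    rw [if_neg e3]
    ring
  have hE : i + j = r := by clear * - hC hD add; omega
  simp only [hC, hD, hE, true_and] at hm ⊢
  by_cases na : za = q <;> by_cases nb : zb = q <;> by_cases nc : zc = q
  · exfalso; rw [if_pos na, if_pos nb, if_pos nc] at hm; norm_num at hm
  · rw [if_pos na, if_pos nb, if_neg nc]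
    simp only [iff_aux add f3 f6 f7 a5 k4 d3 d4 d5 d8 d10 d11 d12 na nc]; ring
  · rw [if_pos na, if_neg nb, if_pos nc]
    simp only [iff_aux add f3 f6 f7 a5 k4 b3 b4 b5 b8 b10 b11 b12 na nb]; ring
  · exact (ex_aux f7 a5 k4 b5 d5 k3 na nb nc).elim
  · rw [if_neg na, if_pos nb, if_pos nc]
    simp only [iff_aux add f3 f6 f7 b5 k5 a3 a4 a5 a8 a10 a11 a12 nb na]; ring
  · exact (ex_aux f7 b5 k5 a5 d5 k2 nb na nc).elim
  · exact (ex_aux f7 d5 k6 a5 b5 k1 nc na nb).elim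
  · rw [if_neg na, if_neg nb, if_neg nc, if_neg (ne_aux add hD l3 f2 f7 f10 a5 b5 k1 na nb)]; ring

theorem Gd.ind0 (h : RK R) (t : Tri R a b c) (g : Gd R a b c X Y p q r) {I J : Finset α}
    (hI : I ⊆ X) (hJ : J ⊆ Y)
    (hm : ind R q ({a} ∪ J) * ind R q ({b} ∪ J) * ind R q ({c} ∪ J) = 0) :
    ind R r (∅ ∪ (I ∪ J)) = ind R p (∅ ∪ I) * ind R q ({a, b} ∪ J) +
      ind R p ({a, b} ∪ I) * ind R q (∅ ∪ J) +
      ind R p ({a} ∪ I) * ((ind R q ({b} ∪ J) + ind R q ({c} ∪ J) - ind R q ({a} ∪ J)) / 2) +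
      ind R p ({b} ∪ I) * ((ind R q ({a} ∪ J) + ind R q ({c} ∪ J) - ind R q ({b} ∪ J)) / 2) +
      ind R p ({c} ∪ I) * ((ind R q ({a} ∪ J) + ind R q ({b} ∪ J) - ind R q ({c} ∪ J)) / 2) := by
  obtain ⟨f1, f2, f3, f4, f5, f6, f7, f8, f9, f10, -⟩ := g.facts h t hI hJ (U := ∅) (by grind)
  obtain ⟨-, -, a3, a4, a5, -, -, a8, -, a10, a11, a12, -⟩ :=
    g.facts h t hI hJ (U := {a}) (by grind)
  obtain ⟨-, -, b3, b4, b5, -, -, b8, -, b10, b11, b12, -⟩ :=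
    g.facts h t hI hJ (U := {b}) (by grind)
  obtain ⟨-, -, d3, d4, d5, -, -, d8, -, d10, d11, d12, -⟩ :=
    g.facts h t hI hJ (U := {c}) (by grind)
  obtain ⟨c1, c2, c3, c4, c5, c6, c7, c8, c9, c10, c11, -⟩ := g.cards t hI hJ
  have l1 := h.le ({a, b} ∪ I)
  have l2 := h.le ({a, b} ∪ J)
  have l3 := h.le (∅ ∪ I)
  have l4 := h.le (∅ ∪ J)
  obtain ⟨s1, s2, s3⟩ := t.single h
  obtain ⟨-, p2, p3⟩ := t.pair h J
  have p1 := (t.pair h J).1
  have k1 := h.sub ({a} ∪ J) ({b} ∪ J) ({a, b} ∪ J) (∅ ∪ J) (by grind) (by grind) (by grind)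
  have k2 := h.sub ({a} ∪ J) ({c} ∪ J) ({a, c} ∪ J) (∅ ∪ J) (by grind) (by grind) (by grind)
  have k3 := h.sub ({b} ∪ J) ({c} ∪ J) ({b, c} ∪ J) (∅ ∪ J) (by grind) (by grind) (by grind)
  have k4 := h.sub {a} (∅ ∪ J) ({a} ∪ J) ∅ (by grind) (by grind) (by grind)
  have k5 := h.sub {b} (∅ ∪ J) ({b} ∪ J) ∅ (by grind) (by grind) (by grind)
  have k6 := h.sub {c} (∅ ∪ J) ({c} ∪ J) ∅ (by grind) (by grind) (by grind)
  rw [p2, ← p1] at k2
  rw [p3, ← p1] at k3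
  rw [s1] at a10 k4
  rw [s2] at b10 k5
  rw [s3] at d10 k6
  rw [c5] at l1
  rw [c10] at l2
  rw [c1] at l3
  rw [c6] at l4
  unfold ind at hm ⊢
  rw [c7, c8, c9] at hm
  rw [c1, c2, c3, c4, c5, c6, c7, c8, c9, c10, c11]
  exact ind0_aux g.add l1 l2 l3 l4 f1 f2 f3 f4 f5 f6 f7 f8 f9 (le_of_add_le_left f10)
    a3 a4 a5 a8 a10 a11 a12 b3 b4 b5 b8 b10 b11 b12 d3 d4 d5 d8 d10 d11 d12
    k1 k2 k3 (le_of_add_le_left k4) (le_of_add_le_left k5) (le_of_add_le_left k6) hm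

/-- The modularity of the triangle on the `Y` side. -/
def Modu (R : Finset α → ℕ) (a b c : α) (Y : Finset α) (q : ℕ) : Prop :=
  ∀ J ⊆ Y, ind R q ({a} ∪ J) * ind R q ({b} ∪ J) * ind R q ({c} ∪ J) = 0

theorem pol_union (R : Finset α → ℕ) (n : ℕ) (hd : Disjoint X Y) (U : Finset α) (y : α → ℝ) :
    pol R n (X ∪ Y) U y = ∑ I ∈ X.powerset, ∑ J ∈ Y.powerset,
      ind R n (U ∪ (I ∪ J)) * ((∏ i ∈ I, y i) * ∏ i ∈ J, y i) := by
  unfold pol
  rw [sum_powerset_union hd]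
  refine sum_congr rfl fun I hI => sum_congr rfl fun J hJ => ?_
  rw [prod_union (hd.mono (mem_powerset.1 hI) (mem_powerset.1 hJ))]

theorem pol_mul (R : Finset α → ℕ) (p q : ℕ) (X Y U V : Finset α) (y : α → ℝ) :
    pol R p X U y * pol R q Y V y = ∑ I ∈ X.powerset, ∑ J ∈ Y.powerset,
      ind R p (U ∪ I) * ind R q (V ∪ J) * ((∏ i ∈ I, y i) * ∏ i ∈ J, y i) := by
  unfold pol
  rw [sum_mul_sum]
  refine sum_congr rfl fun I _ => sum_congr rfl fun J _ => by ring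

/-- the generating polynomial of a gluing from the five polynomials of the two sides. -/
noncomputable def gl (h0 wa wb wc h2 n0 na nb nc n2 u v w : ℝ) : ℝ :=
  tf (h0 * n2 + h2 * n0 + wa * ((nb + nc - na) / 2) + wb * ((na + nc - nb) / 2) +
    wc * ((na + nb - nc) / 2)) (wa * n2 + h2 * na) (wb * n2 + h2 * nb) (wc * n2 + h2 * nc)
    (h2 * n2) u v w

theorem Gd.glue (h : RK R) (t : Tri R a b c) (g : Gd R a b c X Y p q r) (hm : Modu R a b c Y q)
    (y : α → ℝ) :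
    pol R r (insert a (insert b (insert c (X ∪ Y)))) ∅ y =
      gl (pol R p X ∅ y) (pol R p X {a} y) (pol R p X {b} y) (pol R p X {c} y) (pol R p X {a, b} y)
        (pol R q Y ∅ y) (pol R q Y {a} y) (pol R q Y {b} y) (pol R q Y {c} y) (pol R q Y {a, b} y)
        (y a) (y b) (y c) := by
  rw [pol_three h t r (by simp [g.aX, g.aY]) (by simp [g.bX, g.bY]) (by simp [g.cX, g.cY])]
  unfold gl
  have e1 : ∀ e, (e = a ∨ e = b ∨ e = c) → pol R r (X ∪ Y) {e} y =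
      pol R p X {e} y * pol R q Y {a, b} y + pol R p X {a, b} y * pol R q Y {e} y := by
    intro e he
    rw [pol_union R r g.disj, pol_mul, pol_mul, ← sum_add_distrib]
    refine sum_congr rfl fun I hI => ?_
    rw [← sum_add_distrib]
    refine sum_congr rfl fun J hJ => ?_
    rw [g.ind1 h t (mem_powerset.1 hI) (mem_powerset.1 hJ) he]; ring
  have e2 : pol R r (X ∪ Y) {a, b} y = pol R p X {a, b} y * pol R q Y {a, b} y := by
    rw [pol_union R r g.disj, pol_mul]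
    refine sum_congr rfl fun I hI => sum_congr rfl fun J hJ => ?_
    rw [g.ind2 h t (mem_powerset.1 hI) (mem_powerset.1 hJ)]
  have e0 : pol R r (X ∪ Y) ∅ y = pol R p X ∅ y * pol R q Y {a, b} y +
      pol R p X {a, b} y * pol R q Y ∅ y +
      (pol R p X {a} y * pol R q Y {b} y + pol R p X {a} y * pol R q Y {c} y -
        pol R p X {a} y * pol R q Y {a} y) / 2 +
      (pol R p X {b} y * pol R q Y {a} y + pol R p X {b} y * pol R q Y {c} y -
        pol R p X {b} y * pol R q Y {b} y) / 2 +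
      (pol R p X {c} y * pol R q Y {a} y + pol R p X {c} y * pol R q Y {b} y -
        pol R p X {c} y * pol R q Y {c} y) / 2 := by
    rw [pol_union R r g.disj]
    simp only [pol_mul, ← sum_add_distrib, ← sum_sub_distrib, sum_div]
    refine sum_congr rfl fun I hI => sum_congr rfl fun J hJ => ?_
    rw [g.ind0 h t (mem_powerset.1 hI) (mem_powerset.1 hJ) (hm J (mem_powerset.1 hJ))]; ring
  rw [e0, e1 a (Or.inl rfl), e1 b (Or.inr (Or.inl rfl)), e1 c (Or.inr (Or.inr rfl)), e2]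
  congr 1
  ring

end

end Pool.Agent.Lib.MP_c69b6d_co.G
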