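import Pool.Agent.Lib.MP_c69b6d_co.G.Move

/-! The five polynomials of a side satisfy the hypotheses of the transfer. -/

namespace Pool.Agent.Lib.MP_c69b6d_co.G

open Finset

variable {α : Type} [DecidableEq α]

/-- the five polynomials of a side. -/
def sv (R : Finset α → ℕ) (n : ℕ) (S : Finset α) (a b c : α) (y : α → ℝ) : V5 :=
  ⟨pol R n S ∅ y, pol R n S {a} y, pol R n S {b} y, pol R n S {c} y, pol R n S {a, b} y⟩

variable {R : Finset α → ℕ} {a b c : α} {n : ℕ} {S : Finset α}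

theorem sv_dep (y z : α → ℝ) (h : ∀ g ∈ S, y g = z g) : sv R n S a b c y = sv R n S a b c z := by
  unfold sv
  rw [pol_congr R n S ∅ h, pol_congr R n S {a} h, pol_congr R n S {b} h, pol_congr R n S {c} h,
    pol_congr R n S {a, b} h]

theorem pol_up (U : Finset α) {g : α} (hg : g ∈ S) (y : α → ℝ) (s : ℝ) :
    pol R n S U (up y g s) = pol R n S U y + s * pol R n (S.erase g) (insert g U) y := by
  have k : ∀ i ∈ S.erase g, up y g s i = y i := fun i hi => up_ne y s (ne_of_mem_erase hi)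
  have e1 := pol_insert R n U (notMem_erase g S) (up y g s)
  have e2 := pol_insert R n U (notMem_erase g S) y
  rw [insert_erase hg] at e1 e2
  rw [e1, e2, pol_congr R n _ _ k, pol_congr R n _ _ k, up_self]
  ring

theorem sv_aff {g : α} (hg : g ∈ S) (y : α → ℝ) :
    ∃ m : V5, ∀ s, sv R n S a b c (up y g s) = (sv R n S a b c y).mv m s :=
  ⟨⟨_, _, _, _, _⟩, fun s => by
    unfold sv V5.mv
    rw [pol_up ∅ hg, pol_up {a} hg, pol_up {b} hg, pol_up {c} hg, pol_up {a, b} hg]⟩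

theorem tri_aux {j n za zb zc z2 z0 : ℕ} (h2 : z2 ≤ n) (a5 : za ≤ z2) (b5 : zb ≤ z2) (d5 : zc ≤ z2)
    (k3 : z2 + z0 ≤ zb + zc) (k4 : za ≤ 1 + z0) :
    (if j + 1 = n ∧ za = n then (1 : ℝ) else 0) ≤
      (if j + 1 = n ∧ zb = n then 1 else 0) + (if j + 1 = n ∧ zc = n then 1 else 0) := by
  split_ifs <;> first | (norm_num; done) | (exfalso; omega)

theorem pol_le_add {U V W : Finset α} {y : α → ℝ} (hy : ∀ i, 0 < y i)
    (h : ∀ J ⊆ S, ind R n (U ∪ J) ≤ ind R n (V ∪ J) + ind R n (W ∪ J)) :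
    pol R n S U y ≤ pol R n S V y + pol R n S W y := by
  unfold pol
  rw [← sum_add_distrib]
  refine sum_le_sum fun J hJ => ?_
  rw [← add_mul]
  exact mul_le_mul_of_nonneg_right (h J (mem_powerset.1 hJ)) (prod_nonneg fun i _ => (hy i).le)

theorem sv_pos (h : RK R) (t : Tri R a b c) (ha : a ∉ S) (hb : b ∉ S) (hc : c ∉ S)
    (hn : R ({a, b, c} ∪ S) = n) {y : α → ℝ} (hy : ∀ i, 0 < y i) : (sv R n S a b c y).Pos := by
  have key : ∀ J ⊆ S, ind R n ({a} ∪ J) ≤ ind R n ({b} ∪ J) + ind R n ({c} ∪ J) ∧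
      ind R n ({b} ∪ J) ≤ ind R n ({a} ∪ J) + ind R n ({c} ∪ J) ∧
      ind R n ({c} ∪ J) ≤ ind R n ({a} ∪ J) + ind R n ({b} ∪ J) := by
    intro J hJ
    obtain ⟨p1, p2, p3⟩ := t.pair h J
    obtain ⟨s1, s2, s3⟩ := t.single h
    have k1 := h.sub ({a} ∪ J) ({b} ∪ J) ({a, b} ∪ J) J (by grind) (by grind) (by grind)
    have k2 := h.sub ({a} ∪ J) ({c} ∪ J) ({a, c} ∪ J) J (by grind) (by grind) (by grind)
    have k3 := h.sub ({b} ∪ J) ({c} ∪ J) ({b, c} ∪ J) J (by grind) (by grind) (by grind)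
    have k4 := h.sub {a} J ({a} ∪ J) ∅ (by grind) (by grind) (by grind)
    have k5 := h.sub {b} J ({b} ∪ J) ∅ (by grind) (by grind) (by grind)
    have k6 := h.sub {c} J ({c} ∪ J) ∅ (by grind) (by grind) (by grind)
    have m0 : R ({a, b, c} ∪ J) ≤ n := hn ▸ h.mono (by grind)
    have m1 : R ({a} ∪ J) ≤ R ({a, b, c} ∪ J) := h.mono (by grind)
    have m2 : R ({b} ∪ J) ≤ R ({a, b, c} ∪ J) := h.mono (by grind)
    have m3 : R ({c} ∪ J) ≤ R ({a, b, c} ∪ J) := h.mono (by grind)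
    rw [p1] at k1
    rw [p2] at k2
    rw [p3] at k3
    rw [s1] at k4
    rw [s2] at k5
    rw [s3] at k6
    unfold ind
    rw [card_one_union fun k => ha (hJ k), card_one_union fun k => hb (hJ k),
      card_one_union fun k => hc (hJ k)]
    exact ⟨tri_aux m0 m1 m2 m3 k3 (le_of_add_le_left k4),
      tri_aux m0 m2 m1 m3 k2 (le_of_add_le_left k5), tri_aux m0 m3 m1 m2 k1 (le_of_add_le_left k6)⟩
  have h1 := pol_le_add hy fun J hJ => (key J hJ).1
  have h2 := pol_le_add hy fun J hJ => (key J hJ).2.1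
  have h3 := pol_le_add hy fun J hJ => (key J hJ).2.2
  refine ⟨pol_pos h (by rw [t.rab, card_pair t.ab]) S ((t.pair h S).1.trans hn) hy, ?_, ?_, ?_⟩
  · unfold V5.A sv; dsimp only; linarith
  · unfold V5.B sv; dsimp only; linarith
  · unfold V5.C sv; dsimp only; linarith

theorem sv_ev (h : RK R) (t : Tri R a b c) (ha : a ∉ S) (hb : b ∉ S) (hc : c ∉ S) (y : α → ℝ) :
    pol R n (insert a (insert b (insert c S))) ∅ y = (sv R n S a b c y).ev (y a) (y b) (y c) :=
  pol_three h t n ha hb hc y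

theorem pol_indic {J : Finset α} (hJ : J ⊆ S) (U : Finset α) (hU : Disjoint U J) {y : α → ℝ}
    (hy : ∀ i ∈ S, y i = if i ∈ J then 1 else 0) (hn : U.card + J.card ≤ n) :
    pol R n S U y = ind R n (U ∪ J) := by
  unfold pol
  rw [sum_eq_single_of_mem J (mem_powerset.2 hJ), prod_eq_one fun i hi => by
    rw [hy i (hJ hi), if_pos hi], mul_one]
  intro I hI hIJ
  by_cases k : I ⊆ J
  · have h1 := card_lt_card (Finset.ssubset_iff_subset_ne.2 ⟨k, hIJ⟩)
    have h2 := card_union_le U I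
    unfold ind
    rw [if_neg (fun k => by omega), zero_mul]
  · obtain ⟨i, hi, hi'⟩ := not_subset.1 k
    rw [prod_eq_zero hi (by rw [hy i (mem_powerset.1 hI hi), if_neg hi']), mul_zero]

theorem modu_of_quad (t : Tri R a b c) (ha : a ∉ S) (hb : b ∉ S) (hc : c ∉ S)
    (hQ : ∀ y : α → ℝ, (sv R n S a b c y).ev (y a) (y b) (y c) ≠ 0 → (sv R n S a b c y).Q = 0) :
    Modu R a b c S n := by
  intro J hJ
  by_contra k
  have one : ∀ A, ind R n A ≠ 0 → A.card = n ∧ ind R n A = 1 := by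
    intro A hA
    unfold ind at hA ⊢
    split_ifs at hA ⊢ with h
    · exact ⟨h.1, rfl⟩
    · exact absurd rfl hA
  obtain ⟨c1, i1⟩ := one _ (left_ne_zero_of_mul (left_ne_zero_of_mul k))
  obtain ⟨-, i2⟩ := one _ (right_ne_zero_of_mul (left_ne_zero_of_mul k))
  obtain ⟨-, i3⟩ := one _ (right_ne_zero_of_mul k)
  have a1 : a ∉ J := fun k => ha (hJ k)
  have b1 : b ∉ J := fun k => hb (hJ k)
  have d1 : c ∉ J := fun k => hc (hJ k)
  rw [card_one_union a1] at c1
  let y : α → ℝ := fun i => if i = a then 1 else if i ∈ J then 1 else 0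
  have hy : ∀ i ∈ S, y i = if i ∈ J then 1 else 0 := fun i hi => if_neg (ne_of_mem_of_not_mem hi ha)
  have e0 : pol R n S ∅ y = 0 := by
    rw [pol_indic hJ ∅ (by simp) hy (by simp; omega)]
    unfold ind
    rw [if_neg fun k => by rw [empty_union] at k; omega]
  have e1 : pol R n S {a} y = 1 := by rw [pol_indic hJ {a} (by simpa) hy (by simp; omega), i1]
  have e2 : pol R n S {b} y = 1 := by rw [pol_indic hJ {b} (by simpa) hy (by simp; omega), i2]
  have e3 : pol R n S {c} y = 1 := by rw [pol_indic hJ {c} (by simpa) hy (by simp; omega), i3]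
  have ya : y a = 1 := if_pos rfl
  have yb : y b = 0 := by simp only [y, t.ab.symm, b1, if_false]
  have yc : y c = 0 := by simp only [y, t.ac.symm, d1, if_false]
  have := hQ y (by unfold V5.ev tf sv; rw [e0, e1, e2, e3, ya, yb, yc]; norm_num)
  unfold V5.Q V5.A V5.B V5.C sv at this
  rw [e0, e1, e2, e3] at this
  norm_num at this

/-- what is used of the regular side. -/
theorem regular_side [Fintype α] (h : RK R) (t : Tri R a b c) (ha : a ∉ S) (hb : b ∉ S) (hc : c ∉ S)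
    (hn : R ({a, b, c} ∪ S) = n) {k : ℕ} (A : Matrix (Fin k) α ℝ) (hA : A.IsTotallyUnimodular)
    (hI : ∀ I ⊆ ({a, b, c} ∪ S : Finset α),
      (R I = I.card ↔ LinearIndepOn ℝ (fun g i => A i g) (I : Set α))) :
    Modu R a b c S n ∧ (∀ y : α → ℝ, (∀ i, 0 < y i) → (sv R n S a b c y).Q = 0) ∧
    (∀ y : α → ℝ, (∀ i, 0 < y i) → 0 < (sv R n S a b c y).ev (y a) (y b) (y c)) ∧
    ∀ x : ℝ, 0 ≤ x → ∀ g h, (g = a ∨ g = b ∨ g = c ∨ g ∈ S) → (h = a ∨ h = b ∨ h = c ∨ h ∈ S) →
      ∀ y : α → ℝ, (∀ i, 0 < y i) → Gt (sv R n S a b c) a b c x y ≠ 0 →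
        Ry (Gt (sv R n S a b c) a b c x) g h y := by
  have eY : ({a, b, c} ∪ S : Finset α) = insert a (insert b (insert c S)) := by grind
  obtain ⟨ρ, hρ⟩ := exists_rep h hn A hA hI
  obtain ⟨l, m, hlm⟩ := exists_rel t A fun I hI' => hI I (hI'.trans subset_union_left)
  have d : DR (fun g j => A (ρ j) g) ({a, b, c} ∪ S) a b c l m (sv R n S a b c) :=
    ⟨t.ab, t.ac, t.bc, by simp, by simp, by simp, fun j => hlm _,
      fun y => by rw [hρ, eY, sv_ev h t ha hb hc],
      fun y s u r => sv_dep _ _ fun g hg => by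
        rw [up_ne _ _ (ne_of_mem_of_not_mem hg hc), up_ne _ _ (ne_of_mem_of_not_mem hg hb),
          up_ne _ _ (ne_of_mem_of_not_mem hg ha)]⟩
  have hp : ∀ y : α → ℝ, (∀ i, 0 < y i) → 0 < (sv R n S a b c y).ev (y a) (y b) (y c) := by
    intro y hy
    rw [← sv_ev h t ha hb hc, ← eY]
    exact pol_pos h (by have := h.le ∅; simpa using this) _ (by rw [empty_union, hn]) hy
  have t1 := (sv_pos h t ha hb hc hn (y := fun _ => 1) fun _ => one_pos).1.ne'
  obtain ⟨-, l1, l2, -⟩ := d.main (hp (fun _ => 1) fun _ => one_pos).ne'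
  have hl : l ^ 2 = 1 := by have := (mul_eq_zero.1 l1).resolve_left t1; linarith
  have hm : m ^ 2 = 1 := by have := (mul_eq_zero.1 l2).resolve_left t1; linarith
  refine ⟨modu_of_quad t ha hb hc fun y hy => (d.main hy).2.2.2 hl hm,
    fun y hy => (d.main (hp y hy).ne').2.2.2 hl hm, hp, fun x hx g h hg hh y hy hG => ?_⟩
  exact d.ray hp hx (by rw [eY]; simpa using hg) (by rw [eY]; simpa using hh) hy hG

section K4

/-- the bases of `K_4`. -/
def B6 (S : Finset (Fin 6)) : Prop :=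
  S.card = 3 ∧ S ≠ {0, 1, 2} ∧ S ≠ {0, 4, 5} ∧ S ≠ {1, 3, 5} ∧ S ≠ {2, 3, 4}

instance : DecidablePred B6 := fun S => by unfold B6; infer_instance

variable {φ : Fin 6 → α}

theorem pol_image (hφ : Function.Injective φ) (S U : Finset (Fin 6)) (z : α → ℝ) :
    pol R n (S.image φ) (U.image φ) z =
      ∑ I ∈ S.powerset, ind R n ((U ∪ I).image φ) * ∏ i ∈ I, z (φ i) := by
  unfold pol
  rw [powerset_image, sum_image fun _ _ _ _ k => image_injective hφ k]
  refine sum_congr rfl fun I _ => ?_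
  rw [image_union, prod_image fun _ _ _ _ k => hφ k]

theorem k4_sv (hφ : Function.Injective φ)
    (hK : ∀ S : Finset (Fin 6), ind R 3 (S.image φ) = if B6 S then 1 else 0) (z : α → ℝ) :
    sv R 3 (({3, 4, 5} : Finset (Fin 6)).image φ) (φ 0) (φ 1) (φ 2) z =
      k4 (z (φ 3)) (z (φ 4)) (z (φ 5)) := by
  have e : ({3, 4, 5} : Finset (Fin 6)).powerset =
      {∅, {3}, {4}, {5}, {3, 4}, {3, 5}, {4, 5}, {3, 4, 5}} := by decide
  have e' : ∀ F : Finset (Fin 6) → ℝ, ∑ I ∈ ({3, 4, 5} : Finset (Fin 6)).powerset, F I =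
      F ∅ + (F {3} + (F {4} + (F {5} + (F {3, 4} + (F {3, 5} + (F {4, 5} + F {3, 4, 5})))))) := by
    intro F
    rw [e, sum_insert (by decide), sum_insert (by decide), sum_insert (by decide),
      sum_insert (by decide), sum_insert (by decide), sum_insert (by decide),
      sum_insert (by decide), sum_singleton]
  have p1 : ∏ i ∈ ({3, 4} : Finset (Fin 6)), z (φ i) = z (φ 3) * z (φ 4) := prod_pair (by decide)
  have p2 : ∏ i ∈ ({3, 5} : Finset (Fin 6)), z (φ i) = z (φ 3) * z (φ 5) := prod_pair (by decide)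
  have p3 : ∏ i ∈ ({4, 5} : Finset (Fin 6)), z (φ i) = z (φ 4) * z (φ 5) := prod_pair (by decide)
  have p4 : ∏ i ∈ ({3, 4, 5} : Finset (Fin 6)), z (φ i) = z (φ 3) * (z (φ 4) * z (φ 5)) := by
    rw [prod_insert (by decide), p3]
  have h0 := pol_image (R := R) (n := 3) hφ {3, 4, 5} ∅ z
  have h1 := pol_image (R := R) (n := 3) hφ {3, 4, 5} {0} z
  have h2 := pol_image (R := R) (n := 3) hφ {3, 4, 5} {1} z
  have h3 := pol_image (R := R) (n := 3) hφ {3, 4, 5} {2} z
  have h4 := pol_image (R := R) (n := 3) hφ {3, 4, 5} {0, 1} z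
  rw [image_empty] at h0
  rw [image_singleton] at h1 h2 h3
  rw [show ({0, 1} : Finset (Fin 6)).image φ = {φ 0, φ 1} by simp] at h4
  unfold sv k4
  rw [h0, h1, h2, h3, h4]
  simp only [hK, e', p1, p2, p3, p4, prod_singleton, prod_empty]
  simp +decide only [if_true, if_false]
  congr 1 <;> ring

theorem k4_modu
    (hK : ∀ S : Finset (Fin 6), ind R 3 (S.image φ) = if B6 S then 1 else 0) :
    Modu R (φ 0) (φ 1) (φ 2) (({3, 4, 5} : Finset (Fin 6)).image φ) 3 := by
  intro J hJ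
  obtain ⟨I, hI, rfl⟩ := subset_image_iff.1 hJ
  have key : ∀ I : Finset (Fin 6), I ⊆ {3, 4, 5} →
      ¬ B6 ({0} ∪ I) ∨ ¬ B6 ({1} ∪ I) ∨ ¬ B6 ({2} ∪ I) := by decide
  rw [← image_singleton φ, ← image_singleton φ, ← image_singleton φ, ← image_union, ← image_union,
    ← image_union, hK, hK, hK]
  rcases key I hI with k | k | k <;> rw [if_neg k] <;> simp

theorem k4_tri (h : RK R) (hφ : Function.Injective φ)
    (hK : ∀ S : Finset (Fin 6), ind R 3 (S.image φ) = if B6 S then 1 else 0) :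
    Tri R (φ 0) (φ 1) (φ 2) := by
  have k1 : ∀ S : Finset (Fin 6), B6 S → R (S.image φ) = 3 := by
    intro S hS
    have := hK S
    rw [if_pos hS] at this
    unfold ind at this
    by_contra k
    rw [if_neg fun k' => k k'.2] at this
    exact zero_ne_one this
  have k2 : ∀ i j k : Fin 6, B6 {i, j, k} → R {φ i, φ j} = 2 := by
    intro i j k hS
    have e := k1 _ hS
    rw [image_insert, image_insert, image_singleton] at e
    have l1 := h.sub {φ i, φ j} {φ k} {φ i, φ j, φ k} ∅ (by grind) (by simp) (by simp)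
    have l2 := h.le {φ k}
    have l3 := (h.le {φ i, φ j}).trans card_le_two
    rw [card_singleton] at l2
    omega
  have k3 := hK {0, 1, 2}
  have k4 := card_image_of_injective ({0, 1, 2} : Finset (Fin 6)) hφ
  rw [if_neg (by decide)] at k3
  rw [image_insert, image_insert, image_singleton] at k3 k4
  have k5 := h.le {φ 0, φ 1, φ 2}
  have k6 : R {φ 0, φ 1} ≤ R {φ 0, φ 1, φ 2} := h.mono (by grind)
  have k7 := k2 0 1 3 (by decide)
  have k8 : ({0, 1, 2} : Finset (Fin 6)).card = 3 := by decide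
  refine ⟨hφ.ne (by decide), hφ.ne (by decide), hφ.ne (by decide), k7, k2 0 2 3 (by decide),
    k2 1 2 3 (by decide), ?_⟩
  by_contra k
  unfold ind at k3
  rw [if_pos ⟨by omega, by omega⟩] at k3
  exact one_ne_zero k3

end K4

end Pool.Agent.Lib.MP_c69b6d_co.G
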